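import Mathlib

/-!
# A lacunary saw tooth series

The parameters and the function whose graph is the inner boundary.
-/

set_option autoImplicit false
open Set Filter Metric Topology

namespace Pool.Agent.Run7.h762

/-- distance to the nearest integer -/
noncomputable def saw (x : ℝ) : ℝ := |x - round x|

theorem saw_nonneg (x : ℝ) : 0 ≤ saw x := abs_nonneg _

theorem saw_le (x : ℝ) : saw x ≤ 1 / 2 := abs_sub_round x

theorem saw_le_abs (x : ℝ) (m : ℤ) : saw x ≤ |x - m| := round_le x m

theorem saw_lip (x y : ℝ) : |saw x - saw y| ≤ |x - y| := by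
  rw [abs_le]
  constructor
  · have h1 := saw_le_abs y (round x)
    have h2 : |y - round x| ≤ |y - x| + |x - round x| := abs_sub_le _ _ _
    rw [abs_sub_comm y x] at h2
    show -|x - y| ≤ |x - round x| - saw y
    linarith
  · have h1 := saw_le_abs x (round y)
    have h2 : |x - round y| ≤ |x - y| + |y - round y| := abs_sub_le _ _ _
    show saw x - |y - round y| ≤ |x - y|
    linarith

theorem saw_int (m : ℤ) : saw m = 0 := by
  unfold saw
  rw [round_intCast, sub_self, abs_zero]

theorem saw_half (m : ℤ) : saw (m + 1 / 2) = 1 / 2 := by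
  apply le_antisymm (saw_le _)
  unfold saw
  set k : ℤ := round ((m : ℝ) + 1 / 2) with hk
  rcases le_or_gt k m with h | h
  · have h1 : (k : ℝ) ≤ m := by exact_mod_cast h
    refine le_trans ?_ (le_abs_self _)
    linarith
  · have h1 : (m : ℝ) + 1 ≤ k := by exact_mod_cast h
    refine le_trans ?_ (neg_abs_le _ |> fun h => neg_le.1 h)
    linarith

/-- amplitudes -/
noncomputable def am (k : ℕ) : ℝ := (1 / 64) ^ (k + 1)

theorem am_pos (k : ℕ) : 0 < am k := by unfold am; positivity

theorem am_succ (k : ℕ) : am (k + 1) = am k / 64 := by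
  unfold am
  rw [pow_succ]
  ring

theorem am_le (k : ℕ) : am k ≤ 1 / 64 := by
  unfold am
  rw [pow_succ]
  have : ((1 : ℝ) / 64) ^ k ≤ 1 := pow_le_one₀ (by norm_num) (by norm_num)
  nlinarith

/-- number of discs of the chains of level `k` -/
noncomputable def Nf (k : ℕ) (s : ℝ) : ℕ := ⌈64 * (1 + s) ^ 2 / am k⌉₊ + k + 1

/-- number of teeth of level `k` -/
noncomputable def nf (k : ℕ) (s : ℝ) : ℕ := ⌈64 * ((Nf k s : ℝ) + 1) / am k⌉₊ + 1

/-- Lipschitz constants of the partial sums -/
noncomputable def SS : ℕ → ℝ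
  | 0 => 0
  | (k + 1) => SS k + am k * nf k (SS k)

/-- the frequencies -/
noncomputable def fq (k : ℕ) : ℕ := nf k (SS k)

/-- the numbers of discs -/
noncomputable def Nd (k : ℕ) : ℕ := Nf k (SS k)

theorem SS_succ (k : ℕ) : SS (k + 1) = SS k + am k * fq k := rfl

theorem SS_nonneg (k : ℕ) : 0 ≤ SS k := by
  induction k with
  | zero => exact le_refl _
  | succ k ih =>
    rw [SS_succ]
    have := am_pos k
    positivity

theorem Nd_ge (k : ℕ) : 64 * (1 + SS k) ^ 2 / am k ≤ Nd k := by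
  unfold Nd Nf
  push_cast
  have := Nat.le_ceil (64 * (1 + SS k) ^ 2 / am k)
  have h2 : (0 : ℝ) ≤ k := Nat.cast_nonneg k
  linarith

theorem Nd_ge' (k : ℕ) : (k : ℝ) ≤ Nd k := by
  unfold Nd Nf
  push_cast
  have h2 : (0 : ℝ) ≤ ⌈64 * (1 + SS k) ^ 2 / am k⌉₊ := Nat.cast_nonneg _
  linarith

theorem fq_pos (k : ℕ) : (0 : ℝ) < fq k := by
  unfold fq nf
  positivity

theorem fq_ge (k : ℕ) : 64 * ((Nd k : ℝ) + 1) / am k ≤ fq k := by
  unfold fq nf
  push_cast
  have := Nat.le_ceil (64 * ((Nf k (SS k) : ℝ) + 1) / am k)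
  unfold Nd
  linarith

theorem am_fq (k : ℕ) : 64 * ((Nd k : ℝ) + 1) ≤ am k * fq k := by
  have := fq_ge k
  rw [div_le_iff₀ (am_pos k)] at this
  linarith

/-- `SS k / fq k ≤ am k / 32` -/
theorem SS_div (k : ℕ) : SS k * (1 / fq k) ≤ am k / 32 := by
  have h1 := am_fq k
  have h2 := Nd_ge k
  have h3 := SS_nonneg k
  have h4 := am_pos k
  have h5 := fq_pos k
  have h6 : SS k ≤ 64 * (1 + SS k) ^ 2 / am k := by
    rw [le_div_iff₀ h4]
    have := am_le k
    nlinarith
  rw [mul_one_div, div_le_iff₀ h5]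
  nlinarith

theorem fq_inv_le (k : ℕ) : 1 / (fq k : ℝ) ≤ am k / 64 := by
  have h1 := am_fq k
  have h5 := fq_pos k
  rw [div_le_iff₀ h5]
  have : (0 : ℝ) ≤ Nd k := Nat.cast_nonneg _
  nlinarith

/-! ### The function -/

/-- the partial sums -/
noncomputable def fk (k : ℕ) (x : ℝ) : ℝ := ∑ j ∈ Finset.range k, am j * saw (fq j * x)

/-- the terms -/
noncomputable def tm (j : ℕ) (x : ℝ) : ℝ := am j * saw (fq j * x)

theorem tm_nonneg (j : ℕ) (x : ℝ) : 0 ≤ tm j x := mul_nonneg (am_pos j).le (saw_nonneg _)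

theorem tm_le (j : ℕ) (x : ℝ) : tm j x ≤ am j * (1 / 2) :=
  mul_le_mul_of_nonneg_left (saw_le _) (am_pos j).le

theorem am_summable : Summable am := by
  unfold am
  have h := (summable_geometric_of_lt_one (r := (1 : ℝ) / 64) (by norm_num) (by norm_num))
  have := h.mul_left (1 / 64 : ℝ)
  refine this.congr fun k => ?_
  rw [pow_succ]
  ring

theorem am_tail (k : ℕ) : ∑' j, am (j + k) = am k * (64 / 63) := by
  have h := tsum_geometric_of_lt_one (r := (1 : ℝ) / 64) (by norm_num) (by norm_num)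
  have h2 : ∀ j, am (j + k) = am k * (1 / 64 : ℝ) ^ j := by
    intro j
    unfold am
    rw [← pow_add]
    congr 1
    omega
  simp_rw [h2]
  rw [tsum_mul_left, h]
  norm_num

theorem tm_summable (x : ℝ) : Summable (fun j => tm j x) :=
  Summable.of_nonneg_of_le (fun j => tm_nonneg j x) (fun j => tm_le j x)
    (am_summable.mul_right _)

/-- the height of the cut -/
noncomputable def ff (x : ℝ) : ℝ := ∑' j, tm j x

theorem fk_succ (k : ℕ) (x : ℝ) : fk (k + 1) x = fk k x + am k * saw (fq k * x) := by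
  unfold fk
  rw [Finset.sum_range_succ]

theorem ff_split (k : ℕ) (x : ℝ) : ff x = fk k x + ∑' j, tm (j + k) x := by
  unfold ff fk
  rw [← (tm_summable x).sum_add_tsum_nat_add k]
  rfl

theorem tail_nonneg (k : ℕ) (x : ℝ) : 0 ≤ ∑' j, tm (j + k) x :=
  tsum_nonneg fun j => tm_nonneg _ x

theorem tail_le (k : ℕ) (x : ℝ) : ∑' j, tm (j + k) x ≤ am k := by
  have h1 : ∑' j, tm (j + k) x ≤ ∑' j, am (j + k) * (1 / 2) := by
    refine Summable.tsum_le_tsum (fun j => tm_le _ x) ?_ ?_
    · exact (summable_nat_add_iff k).2 (tm_summable x)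
    · exact ((summable_nat_add_iff k).2 am_summable).mul_right _
  rw [tsum_mul_right, am_tail] at h1
  have := am_pos k
  nlinarith

theorem fk_le_ff (k : ℕ) (x : ℝ) : fk k x ≤ ff x := by
  rw [ff_split k x]
  linarith [tail_nonneg k x]

theorem ff_le_fk (k : ℕ) (x : ℝ) : ff x ≤ fk k x + am k := by
  rw [ff_split k x]
  linarith [tail_le k x]

theorem ff_nonneg (x : ℝ) : 0 ≤ ff x := tsum_nonneg fun j => tm_nonneg _ x

theorem ff_le (x : ℝ) : ff x ≤ 1 / 64 := by
  have := ff_le_fk 0 x
  have h2 := am_le 0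
  unfold fk at this
  simp only [Finset.range_zero, Finset.sum_empty, zero_add] at this
  linarith

theorem ff_continuous : Continuous ff := by
  unfold ff
  refine continuous_tsum (u := fun j => am j * (1 / 2)) (fun j => ?_) (am_summable.mul_right _)
    fun j x => ?_
  · unfold tm
    refine continuous_const.mul ?_
    have h : Continuous saw := by
      refine LipschitzWith.continuous (K := 1) ?_
      refine LipschitzWith.of_dist_le_mul fun x y => ?_
      rw [Real.dist_eq, Real.dist_eq, NNReal.coe_one, one_mul]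
      exact saw_lip x y
    exact h.comp (by fun_prop)
  · rw [Real.norm_of_nonneg (tm_nonneg j x)]
    exact tm_le j x

theorem fk_lip (k : ℕ) (x y : ℝ) : |fk k x - fk k y| ≤ SS k * |x - y| := by
  induction k with
  | zero =>
    unfold fk
    simp [SS]
  | succ k ih =>
    rw [fk_succ, fk_succ, SS_succ]
    have h1 : fk k x + am k * saw (fq k * x) - (fk k y + am k * saw (fq k * y)) =
        (fk k x - fk k y) + am k * (saw (fq k * x) - saw (fq k * y)) := by ring
    rw [h1]
    refine (abs_add_le _ _).trans ?_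
    rw [abs_mul, abs_of_pos (am_pos k), add_mul]
    refine add_le_add ih ?_
    rw [mul_assoc]
    refine mul_le_mul_of_nonneg_left ?_ (am_pos k).le
    refine (saw_lip _ _).trans ?_
    rw [← mul_sub, abs_mul, abs_of_nonneg (Nat.cast_nonneg _)]

/-- at the peaks of level `k` -/
theorem ff_peak (k : ℕ) (m : ℤ) : fk k (((m : ℝ) + 1 / 2) * (1 / fq k)) + am k / 2 ≤
    ff (((m : ℝ) + 1 / 2) * (1 / fq k)) := by
  have h := fk_le_ff (k + 1) (((m : ℝ) + 1 / 2) * (1 / fq k))
  rw [fk_succ] at h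
  have h2 : (fq k : ℝ) * (((m : ℝ) + 1 / 2) * (1 / fq k)) = m + 1 / 2 := by
    have := (fq_pos k).ne'
    field_simp
  rw [h2, saw_half] at h
  linarith

/-- at the valleys of level `k` -/
theorem ff_valley (k : ℕ) (m : ℤ) : ff ((m : ℝ) * (1 / fq k)) ≤
    fk k ((m : ℝ) * (1 / fq k)) + am k / 64 := by
  have h := ff_le_fk (k + 1) ((m : ℝ) * (1 / fq k))
  rw [fk_succ] at h
  have h2 : (fq k : ℝ) * ((m : ℝ) * (1 / fq k)) = m := by
    have := (fq_pos k).ne'
    field_simp
  rw [h2, saw_int, am_succ] at h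
  linarith

end Pool.Agent.Run7.h762
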