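import Mathlib
import Pool.Agent.Run7.h762.Geo

/-!
# The domain: a rectangle-like region cut along the graph
-/

set_option autoImplicit false
open Set Filter Metric Topology

namespace Pool.Agent.Run7.h762

/-- height above the graph -/
noncomputable def hh (z : ℂ) : ℝ := z.im - ff z.re

theorem hh_continuous : Continuous hh :=
  Complex.continuous_im.sub (ff_continuous.comp Complex.continuous_re)

/-- the domain -/
def Dom : Set ℂ := {z | 0 < z.re ∧ z.re < 2 ∧ |hh z| < 1 ∧ (hh z = 0 → 1 < z.re)}

theorem isOpen_Dom : IsOpen Dom := by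
  have h : Dom = {z | 0 < z.re} ∩ {z | z.re < 2} ∩ {z | |hh z| < 1} ∩
      ({z | hh z ≠ 0} ∪ {z | 1 < z.re}) := by
    ext z
    simp only [Dom, mem_ofPred_eq, mem_inter_iff, mem_union]
    constructor
    · rintro ⟨h1, h2, h3, h4⟩
      refine ⟨⟨⟨h1, h2⟩, h3⟩, ?_⟩
      by_cases h : hh z = 0
      · exact Or.inr (h4 h)
      · exact Or.inl h
    · rintro ⟨⟨⟨h1, h2⟩, h3⟩, h4⟩
      refine ⟨h1, h2, h3, fun h => ?_⟩
      rcases h4 with h4 | h4
      · exact absurd h h4
      · exact h4
  rw [h]
  refine (((isOpen_lt continuous_const Complex.continuous_re).inter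
    (isOpen_lt Complex.continuous_re continuous_const)).inter
    (isOpen_lt hh_continuous.abs continuous_const)).inter ?_
  exact (isOpen_ne_fun hh_continuous continuous_const).union
    (isOpen_lt continuous_const Complex.continuous_re)

theorem Dom_sub : Dom ⊆ ball 0 4 := by
  intro z hz
  obtain ⟨h1, h2, h3, -⟩ := hz
  rw [mem_ball_zero_iff]
  refine (Complex.norm_le_abs_re_add_abs_im z).trans_lt ?_
  rw [abs_lt] at h3
  unfold hh at h3
  have h4 := ff_nonneg z.re
  have h5 := ff_le z.re
  have h6 : |z.re| < 2 := by rw [abs_lt]; constructor <;> linarith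
  have h7 : |z.im| < 2 := by rw [abs_lt]; constructor <;> linarith
  linarith

theorem Dom_bounded : Bornology.IsBounded Dom := isBounded_ball.subset Dom_sub

/-- the shear -/
noncomputable def shear : ℂ ≃ₜ ℂ where
  toFun z := z - ff z.re * Complex.I
  invFun z := z + ff z.re * Complex.I
  left_inv z := by
    have : (z - ff z.re * Complex.I).re = z.re := by simp
    simp only [this]
    ring
  right_inv z := by
    have : (z + ff z.re * Complex.I).re = z.re := by simp
    simp only [this]
    ring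
  continuous_toFun := by
    have := ff_continuous
    fun_prop
  continuous_invFun := by
    have := ff_continuous
    fun_prop

theorem shear_re (z : ℂ) : (shear z).re = z.re := by
  show (z - ff z.re * Complex.I).re = z.re
  simp

theorem shear_im (z : ℂ) : (shear z).im = hh z := by
  show (z - ff z.re * Complex.I).im = hh z
  simp [hh]

theorem shear_symm_re (z : ℂ) : (shear.symm z).re = z.re := by
  rw [← shear_re (shear.symm z), Homeomorph.apply_symm_apply]

theorem hh_shear_symm (z : ℂ) : hh (shear.symm z) = z.im := by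
  rw [← shear_im, Homeomorph.apply_symm_apply]

/-- the slit rectangle -/
def Rec : Set ℂ := {z | 0 < z.re ∧ z.re < 2 ∧ |z.im| < 1 ∧ (z.im = 0 → 1 < z.re)}

theorem Rec_star : StarConvex ℝ (3 / 2 : ℂ) Rec := by
  intro y hy a b ha hb hab
  obtain ⟨h1, h2, h3, h4⟩ := hy
  have e1 : (a • (3 / 2 : ℂ) + b • y).re = a * (3 / 2) + b * y.re := by
    simp
  have e2 : (a • (3 / 2 : ℂ) + b • y).im = b * y.im := by
    simp
  have hb1 : b ≤ 1 := by linarith
  simp only [Rec, mem_ofPred_eq, e1, e2]
  rcases hb.eq_or_lt with hb0 | hb0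
  · have ha1 : a = 1 := by linarith
    subst hb0
    subst ha1
    norm_num
  · refine ⟨by positivity, by nlinarith, ?_, fun h => ?_⟩
    · rw [abs_mul, abs_of_nonneg hb]
      nlinarith [abs_nonneg y.im]
    · have := h4 ((mul_eq_zero.1 h).resolve_left hb0.ne')
      nlinarith

theorem Rec_simply : IsSimplyConnected Rec := by
  have hne : Rec.Nonempty := ⟨3 / 2, by
    simp only [Rec, mem_ofPred_eq]
    norm_num⟩
  have := Rec_star.contractibleSpace hne
  exact (inferInstance : SimplyConnectedSpace Rec)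

theorem image_Rec : shear.symm '' Rec = Dom := by
  ext z
  constructor
  · rintro ⟨w, hw, rfl⟩
    obtain ⟨h1, h2, h3, h4⟩ := hw
    refine ⟨?_, ?_, ?_, ?_⟩
    · rw [shear_symm_re]; exact h1
    · rw [shear_symm_re]; exact h2
    · rw [hh_shear_symm]; exact h3
    · rw [hh_shear_symm, shear_symm_re]; exact h4
  · rintro ⟨h1, h2, h3, h4⟩
    refine ⟨shear z, ⟨?_, ?_, ?_, ?_⟩, Homeomorph.symm_apply_apply _ _⟩
    · rw [shear_re]; exact h1
    · rw [shear_re]; exact h2
    · rw [shear_im]; exact h3
    · rw [shear_re, shear_im]; exact h4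

theorem Dom_simply : IsSimplyConnected Dom := by
  rw [← image_Rec]
  have := Rec_simply.simplyConnectedSpace
  exact (shear.symm.image Rec).symm.toHomotopyEquiv.simplyConnectedSpace

/-- the centre -/
noncomputable def zc : ℂ := ⟨3 / 2, ff (3 / 2)⟩

theorem zc_mem : zc ∈ Dom := by
  have h : hh zc = 0 := by
    unfold hh zc
    simp
  refine ⟨?_, ?_, ?_, ?_⟩
  · show (0 : ℝ) < 3 / 2
    norm_num
  · show (3 / 2 : ℝ) < 2
    norm_num
  · rw [h]; norm_num
  · intro _
    show (1 : ℝ) < 3 / 2
    norm_num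

theorem Dom_ne_univ : Dom ≠ univ := by
  intro h
  have : (0 : ℂ) ∈ Dom := by rw [h]; trivial
  have h1 := this.1
  simp at h1

/-! ### The inner boundary -/

/-- the solid region -/
def Sol : Set ℂ := {z | 0 < z.re ∧ z.re < 2 ∧ |hh z| < 1}

theorem isOpen_Sol : IsOpen Sol := by
  have h : Sol = {z | 0 < z.re} ∩ {z | z.re < 2} ∩ {z | |hh z| < 1} := by
    ext z
    simp only [Sol, mem_ofPred_eq, mem_inter_iff]
    tauto
  rw [h]
  exact ((isOpen_lt continuous_const Complex.continuous_re).inter
    (isOpen_lt Complex.continuous_re continuous_const)).inter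
    (isOpen_lt hh_continuous.abs continuous_const)

theorem hh_add (z : ℂ) (t : ℝ) : hh (z + t * Complex.I) = hh z + t := by
  unfold hh
  simp
  ring

theorem Sol_sub_closure : Sol ⊆ closure Dom := by
  rintro z ⟨h1, h2, h3⟩
  by_cases h : hh z = 0
  · have ht : Tendsto (fun n : ℕ => z + ((1 / ((n : ℝ) + 2) : ℝ) : ℂ) * Complex.I) atTop (𝓝 z) := by
      have h4 : Tendsto (fun n : ℕ => (1 / ((n : ℝ) + 2) : ℝ)) atTop (𝓝 0) := by
        have := tendsto_one_div_add_atTop_nhds_zero_nat (𝕜 := ℝ)
        have h5 := (tendsto_add_atTop_iff_nat 1).2 this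
        refine h5.congr fun n => ?_
        push_cast
        ring
      have h5 := ((Complex.continuous_ofReal.tendsto 0).comp h4).mul_const Complex.I
      have h6 := h5.const_add z
      simpa using h6
    refine mem_closure_of_tendsto ht (Eventually.of_forall fun n => ?_)
    have hn : (0 : ℝ) < (n : ℝ) + 2 := by positivity
    have hn1 : 0 < 1 / ((n : ℝ) + 2) := by positivity
    have hn2 : 1 / ((n : ℝ) + 2) < 1 := by
      rw [div_lt_one hn]
      have : (0 : ℝ) ≤ n := Nat.cast_nonneg n
      linarith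
    refine ⟨?_, ?_, ?_, ?_⟩
    · simpa using h1
    · simpa using h2
    · rw [hh_add, h, zero_add, abs_of_pos hn1]
      exact hn2
    · rw [hh_add, h, zero_add]
      intro h7
      exact absurd h7 hn1.ne'
  · exact subset_closure ⟨h1, h2, h3, fun h' => absurd h' h⟩

/-- the points of the cut -/
noncomputable def cut (x : ℝ) : ℂ := ⟨x, ff x⟩

theorem hh_cut (x : ℝ) : hh (cut x) = 0 := by
  unfold hh cut
  simp

theorem cut_not_mem {x : ℝ} (hx : x ≤ 1) : cut x ∉ Dom := by
  intro h
  have := h.2.2.2 (hh_cut x)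
  have h2 : (cut x).re = x := rfl
  linarith

theorem cut_mem_Sol {x : ℝ} (h0 : 0 < x) (h2 : x < 2) : cut x ∈ Sol := by
  refine ⟨h0, h2, ?_⟩
  rw [hh_cut]
  norm_num

theorem inner_nonempty : (frontier Dom ∩ interior (closure Dom)).Nonempty := by
  refine ⟨cut (1 / 2), ?_, ?_⟩
  · rw [frontier, isOpen_Dom.interior_eq]
    exact ⟨Sol_sub_closure (cut_mem_Sol (by norm_num) (by norm_num)), cut_not_mem (by norm_num)⟩
  · exact interior_maximal Sol_sub_closure isOpen_Sol (cut_mem_Sol (by norm_num) (by norm_num))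

/-! ### The exterior -/

theorem closure_Dom_sub : closure Dom ⊆ {z | 0 ≤ z.re ∧ z.re ≤ 2 ∧ |hh z| ≤ 1} := by
  have hcl : IsClosed {z : ℂ | 0 ≤ z.re ∧ z.re ≤ 2 ∧ |hh z| ≤ 1} := by
    refine (isClosed_le continuous_const Complex.continuous_re).inter
      ((isClosed_le Complex.continuous_re continuous_const).inter
      (isClosed_le hh_continuous.abs continuous_const))
  refine closure_minimal ?_ hcl
  rintro z ⟨h1, h2, h3, -⟩
  exact ⟨h1.le, h2.le, h3.le⟩

/-- the four exterior regions -/
def Ex (j : Fin 4) : Set ℂ :=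
  match j with
  | 0 => {z | z.re < 0}
  | 1 => {z | 2 < z.re}
  | 2 => {z | 1 < hh z}
  | 3 => {z | hh z < -1}

theorem Ex_open (j : Fin 4) : IsOpen (Ex j) := by
  fin_cases j
  · exact isOpen_lt Complex.continuous_re continuous_const
  · exact isOpen_lt continuous_const Complex.continuous_re
  · exact isOpen_lt continuous_const hh_continuous
  · exact isOpen_lt hh_continuous continuous_const

theorem Ex_disj (j : Fin 4) : Disjoint (Ex j) (closure Dom) := by
  rw [Set.disjoint_left]
  intro z hz hc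
  obtain ⟨h1, h2, h3⟩ := closure_Dom_sub hc
  rw [abs_le] at h3
  fin_cases j
  · have : z.re < 0 := hz
    linarith
  · have : 2 < z.re := hz
    linarith
  · have : 1 < hh z := hz
    linarith
  · have : hh z < -1 := hz
    linarith

theorem image_im (P : ℝ → Prop) : shear.symm '' {z : ℂ | P z.im} = {z | P (hh z)} := by
  ext z
  constructor
  · rintro ⟨w, hw, rfl⟩
    show P (hh (shear.symm w))
    rw [hh_shear_symm]
    exact hw
  · intro hz
    refine ⟨shear z, ?_, Homeomorph.symm_apply_apply _ _⟩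
    show P (shear z).im
    rw [shear_im]
    exact hz

theorem Ex_conn (j : Fin 4) : IsConnected (Ex j) := by
  fin_cases j
  · refine ⟨⟨-1, ?_⟩, (convex_halfSpace_re_lt 0).isPreconnected⟩
    show (-1 : ℂ).re < 0
    simp
  · refine ⟨⟨3, ?_⟩, (convex_halfSpace_re_gt 2).isPreconnected⟩
    show 2 < (3 : ℂ).re
    norm_num
  · have h : IsConnected {z : ℂ | 1 < z.im} := by
      refine ⟨⟨⟨0, 2⟩, ?_⟩, (convex_halfSpace_im_gt 1).isPreconnected⟩
      show (1 : ℝ) < 2
      norm_num
    have h2 := h.image _ shear.symm.continuous.continuousOn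
    rw [image_im (fun t => 1 < t)] at h2
    exact h2
  · have h : IsConnected {z : ℂ | z.im < -1} := by
      refine ⟨⟨⟨0, -2⟩, ?_⟩, (convex_halfSpace_im_lt (-1)).isPreconnected⟩
      show (-2 : ℝ) < -1
      norm_num
    have h2 := h.image _ shear.symm.continuous.continuousOn
    rw [image_im (fun t => t < -1)] at h2
    exact h2

theorem Ex_unbdd (j : Fin 4) : ¬ Bornology.IsBounded (Ex j) := by
  intro hb
  obtain ⟨r, hr⟩ := hb.subset_closedBall 0
  have key : ∀ z : ℂ, z ∈ Ex j → ‖z‖ ≤ r := fun z hz => by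
    have := hr hz
    rwa [mem_closedBall_zero_iff] at this
  have hr1 : |r| + 3 > r := by linarith [le_abs_self r]
  fin_cases j
  · have h1 := key (-(|r| + 3 : ℝ)) (by
      show (-((|r| + 3 : ℝ) : ℂ)).re < 0
      rw [Complex.neg_re, Complex.ofReal_re]
      linarith [abs_nonneg r])
    rw [norm_neg, Complex.norm_real, Real.norm_of_nonneg (by positivity)] at h1
    linarith
  · have h1 := key ((|r| + 3 : ℝ)) (by
      show 2 < (((|r| + 3 : ℝ) : ℂ)).re
      rw [Complex.ofReal_re]
      linarith [abs_nonneg r])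
    rw [Complex.norm_real, Real.norm_of_nonneg (by positivity)] at h1
    linarith
  · have h1 := key ⟨0, |r| + 3⟩ (by
      show 1 < hh ⟨0, |r| + 3⟩
      unfold hh
      have := ff_le 0
      show 1 < |r| + 3 - ff 0
      linarith [abs_nonneg r])
    have h2 := Complex.abs_im_le_norm ⟨0, |r| + 3⟩
    have h3 : |(|r| + 3)| = |r| + 3 := abs_of_nonneg (by positivity)
    simp only at h2
    rw [h3] at h2
    linarith
  · have h1 := key ⟨0, -(|r| + 3)⟩ (by
      show hh ⟨0, -(|r| + 3)⟩ < -1
      unfold hh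
      have := ff_nonneg 0
      show -(|r| + 3) - ff 0 < -1
      linarith [abs_nonneg r])
    have h2 := Complex.abs_im_le_norm ⟨0, -(|r| + 3)⟩
    have h3 : |(-(|r| + 3))| = |r| + 3 := by
      rw [abs_neg]
      exact abs_of_nonneg (by positivity)
    simp only at h2
    rw [h3] at h2
    linarith

/-- A continuous function which vanishes on the four exterior regions and at the points of the cut
over `(0, 1)` vanishes off the domain. -/
theorem zero_off {G : ℂ → ℂ} (hG : Continuous G) (hex : ∀ j, ∀ z ∈ Ex j, G z = 0)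
    (hcut : ∀ x : ℝ, 0 < x → x < 1 → G (cut x) = 0) : ∀ z, z ∉ Dom → G z = 0 := by
  have hcl : IsClosed {z | G z = 0} := isClosed_eq hG continuous_const
  have hseq : Tendsto (fun n : ℕ => (1 / ((n : ℝ) + 1) : ℝ)) atTop (𝓝 0) :=
    tendsto_one_div_add_atTop_nhds_zero_nat
  have hpos : ∀ n : ℕ, 0 < 1 / ((n : ℝ) + 1) := fun n => by positivity
  -- approximation along a direction
  have key : ∀ (z d : ℂ), (∀ n : ℕ, G (z + ((1 / ((n : ℝ) + 1) : ℝ) : ℂ) * d) = 0) → G z = 0 := by
    intro z d h
    have ht : Tendsto (fun n : ℕ => z + ((1 / ((n : ℝ) + 1) : ℝ) : ℂ) * d) atTop (𝓝 z) := by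
      have h5 := ((Complex.continuous_ofReal.tendsto 0).comp hseq).mul_const d
      have h6 := h5.const_add z
      simpa using h6
    exact hcl.mem_of_tendsto ht (Eventually.of_forall h)
  intro z hz
  by_cases h1 : z.re ≤ 0
  · refine key z (-1) fun n => hex 0 _ ?_
    show (z + ((1 / ((n : ℝ) + 1) : ℝ) : ℂ) * -1).re < 0
    have : (z + ((1 / ((n : ℝ) + 1) : ℝ) : ℂ) * -1).re = z.re - 1 / ((n : ℝ) + 1) := by
      rw [mul_neg_one, Complex.add_re, Complex.neg_re, Complex.ofReal_re]
      ring
    rw [this]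
    linarith [hpos n]
  by_cases h2 : 2 ≤ z.re
  · refine key z 1 fun n => hex 1 _ ?_
    show 2 < (z + ((1 / ((n : ℝ) + 1) : ℝ) : ℂ) * 1).re
    have : (z + ((1 / ((n : ℝ) + 1) : ℝ) : ℂ) * 1).re = z.re + 1 / ((n : ℝ) + 1) := by
      rw [mul_one, Complex.add_re, Complex.ofReal_re]
    rw [this]
    linarith [hpos n]
  by_cases h3 : 1 ≤ hh z
  · refine key z Complex.I fun n => hex 2 _ ?_
    show 1 < hh (z + ((1 / ((n : ℝ) + 1) : ℝ) : ℂ) * Complex.I)
    rw [hh_add]
    linarith [hpos n]
  by_cases h4 : hh z ≤ -1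
  · refine key z (-Complex.I) fun n => hex 3 _ ?_
    show hh (z + ((1 / ((n : ℝ) + 1) : ℝ) : ℂ) * -Complex.I) < -1
    have : z + ((1 / ((n : ℝ) + 1) : ℝ) : ℂ) * -Complex.I =
        z + ((-(1 / ((n : ℝ) + 1)) : ℝ) : ℂ) * Complex.I := by
      push_cast
      ring
    rw [this, hh_add]
    linarith [hpos n]
  rw [not_le] at h1 h2 h3 h4
  have h5 : hh z = 0 ∧ z.re ≤ 1 := by
    by_contra hcon
    apply hz
    refine ⟨h1, h2, ?_, fun h => ?_⟩
    · rw [abs_lt]
      constructor <;> linarith
    · by_contra h6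
      exact hcon ⟨h, not_lt.1 h6⟩
  have hzc : z = cut z.re := by
    apply Complex.ext
    · rfl
    · have := h5.1
      unfold hh at this
      show z.im = ff z.re
      linarith
  rcases h5.2.lt_or_eq with h6 | h6
  · rw [hzc]
    exact hcut _ h1 h6
  · -- the tip
    have hc : Continuous cut := by
      have h7 : cut = fun x : ℝ => (x : ℂ) + ff x * Complex.I := by
        funext x
        apply Complex.ext <;> simp [cut]
      rw [h7]
      have := ff_continuous
      fun_prop
    have ht : Tendsto (fun n : ℕ => cut (1 - 1 / ((n : ℝ) + 2))) atTop (𝓝 (cut 1)) := by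
      have h4 : Tendsto (fun n : ℕ => (1 / ((n : ℝ) + 2) : ℝ)) atTop (𝓝 0) := by
        have h5 := (tendsto_add_atTop_iff_nat 1).2 hseq
        refine h5.congr fun n => ?_
        push_cast
        ring
      have h5 := h4.const_sub 1
      rw [sub_zero] at h5
      exact (hc.tendsto 1).comp h5
    rw [hzc, h6]
    refine hcl.mem_of_tendsto ht (Eventually.of_forall fun n => hcut _ ?_ ?_)
    · have : 1 / ((n : ℝ) + 2) < 1 := by
        rw [div_lt_one (by positivity)]
        have : (0 : ℝ) ≤ n := Nat.cast_nonneg n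
        linarith
      linarith
    · have : (0 : ℝ) < 1 / ((n : ℝ) + 2) := by positivity
      linarith

end Pool.Agent.Run7.h762
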