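import Mathlib
import Pool.Agent.Run7.h762.Dom

/-!
# The channel estimate
-/

set_option autoImplicit false
open Set Filter Metric Topology

namespace Pool.Agent.Run7.h762

/-- the comparison function -/
noncomputable def EE (σ κ xc Y : ℝ) (z : ℂ) : ℂ :=
  Complex.exp (-(Complex.I * (σ * κ : ℝ) * (z - xc - Complex.I * Y)))

theorem EE_diff (σ κ xc Y : ℝ) : Differentiable ℂ (EE σ κ xc Y) := by
  unfold EE
  fun_prop

theorem EE_re {σ κ xc Y : ℝ} (hσ : σ = 1 ∨ σ = -1) (z : ℂ) :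
    (EE σ κ xc Y z).re = Real.exp (κ * (σ * (z.im - Y))) * Real.cos (κ * (z.re - xc)) := by
  unfold EE
  rw [Complex.exp_re]
  have h1 : (-(Complex.I * (σ * κ : ℝ) * (z - xc - Complex.I * Y))).re = κ * (σ * (z.im - Y)) := by
    simp
    ring
  have h2 : (-(Complex.I * (σ * κ : ℝ) * (z - xc - Complex.I * Y))).im =
      -(σ * (κ * (z.re - xc))) := by
    simp
    ring
  rw [h1, h2, Real.cos_neg]
  rcases hσ with h | h
  · rw [h, one_mul, one_mul]
  · rw [h, neg_one_mul, neg_one_mul, Real.cos_neg]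

theorem cos_ge {κ b t : ℝ} (hκ : κ = Real.pi / (2 * b)) (hb : 0 < b) (ht : |t| ≤ b / 2) :
    √2 / 2 ≤ Real.cos (κ * t) := by
  have hπ := Real.pi_pos
  rw [← Real.cos_pi_div_four, ← Real.cos_abs (κ * t)]
  have hκ0 : 0 < κ := by rw [hκ]; positivity
  apply Real.cos_le_cos_of_nonneg_of_le_pi (abs_nonneg _) (by linarith)
  rw [abs_mul, abs_of_pos hκ0]
  calc κ * |t| ≤ κ * (b / 2) := mul_le_mul_of_nonneg_left ht hκ0.le
    _ = Real.pi / 4 := by
        rw [hκ]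
        field_simp
        ring

/-- **The channel estimate.** -/
theorem channel {φ : ℂ → ℂ} (hd : DifferentiableOn ℂ φ Dom)
    (hK : ∀ r : ℝ, r < 1 → IsClosed {z | z ∈ Dom ∧ ‖φ z‖ ≤ r})
    (hlt : ∀ z ∈ Dom, ‖φ z‖ < 1)
    {M : ℝ} (hM : 0 ≤ M) (hlow : ∀ z ∈ Dom, z.re ≤ 1 → Real.exp (-M) ≤ ‖φ z‖)
    {σ b xc Y : ℝ} (hσ : σ = 1 ∨ σ = -1) (hb : 0 < b) (hx : xc + b / 2 ≤ 1)
    (hw1 : 0 ≤ σ * (ff (xc - b / 2) - Y)) (hw2 : 0 ≤ σ * (ff (xc + b / 2) - Y))
    {z : ℂ} (hz : z ∈ Dom) (hz1 : |z.re - xc| ≤ b / 2) (hz2 : 0 < σ * hh z)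
    (hz3 : 0 ≤ σ * (Y - z.im)) :
    -Real.log ‖φ z‖ ≤ √2 * M * Real.exp (-(Real.pi / (2 * b) * (σ * (Y - z.im)))) := by
  set κ : ℝ := Real.pi / (2 * b) with hκ
  have hπ := Real.pi_pos
  have hκ0 : 0 < κ := by rw [hκ]; positivity
  have hs2 : √2 * (√2 / 2) = 1 := by
    have := Real.mul_self_sqrt (show (0 : ℝ) ≤ 2 by norm_num)
    linarith
  have hs0 : 0 < √2 := by positivity
  have hs1 : 1 ≤ √2 := by
    rw [show (1 : ℝ) = √1 by simp]
    exact Real.sqrt_le_sqrt (by norm_num)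
  -- walls
  have wall : ∀ w ∈ Dom, |w.re - xc| ≤ b / 2 → 0 ≤ σ * hh w → σ * (w.im - Y) ≤ 0 →
      |w.re - xc| < b / 2 ∧ 0 < σ * hh w ∧ w.re ≤ 1 := by
    intro w hw h1 h2 h3
    have hre : w.re ≤ 1 := by
      have := (abs_le.1 h1).2
      linarith
    have hne : hh w ≠ 0 := fun h => by
      have := hw.2.2.2 h
      linarith
    have hσ0 : σ ≠ 0 := by rcases hσ with h | h <;> rw [h] <;> norm_num
    have hpos : 0 < σ * hh w := lt_of_le_of_ne h2 (Ne.symm (mul_ne_zero hσ0 hne))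
    refine ⟨lt_of_le_of_ne h1 fun heq => ?_, hpos, hre⟩
    have h4 : 0 ≤ σ * (ff w.re - Y) := by
      rcases abs_cases (w.re - xc) with ⟨h5, -⟩ | ⟨h5, -⟩
      · have : w.re = xc + b / 2 := by linarith
        rw [this]
        exact hw2
      · have : w.re = xc - b / 2 := by linarith
        rw [this]
        exact hw1
    have h5 : σ * hh w = σ * (w.im - Y) - σ * (ff w.re - Y) := by
      unfold hh
      ring
    linarith
  have hz4 : σ * (z.im - Y) ≤ 0 := by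
    have : σ * (z.im - Y) = -(σ * (Y - z.im)) := by ring
    linarith
  obtain ⟨hz5, -, hz6⟩ := wall z hz hz1 hz2.le hz4
  have hφz : 0 < ‖φ z‖ := (Real.exp_pos _).trans_le (hlow z hz hz6)
  rcases hz4.eq_or_lt with heq | hlt4
  · -- at the top
    have h1 : σ * (Y - z.im) = 0 := by
      have : σ * (z.im - Y) = -(σ * (Y - z.im)) := by ring
      linarith
    rw [h1, mul_zero, neg_zero, Real.exp_zero, mul_one]
    have h2 := Real.log_le_log (Real.exp_pos _) (hlow z hz hz6)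
    rw [Real.log_exp] at h2
    nlinarith
  -- the function
  set lam : ℝ := √2 * M with hlam
  have hlam0 : 0 ≤ lam := by positivity
  set Q : ℂ → ℂ := fun w => (φ w)⁻¹ * Complex.exp (-((lam : ℂ) * EE σ κ xc Y w)) with hQ
  have hQn : ∀ w, ‖Q w‖ = ‖φ w‖⁻¹ * Real.exp (-(lam * (EE σ κ xc Y w).re)) := by
    intro w
    rw [hQ]
    simp only
    rw [norm_mul, norm_inv, Complex.norm_exp]
    congr 2
    simp
  have hEre : ∀ w : ℂ, |w.re - xc| ≤ b / 2 →
      Real.exp (κ * (σ * (w.im - Y))) * (√2 / 2) ≤ (EE σ κ xc Y w).re := by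
    intro w hw
    rw [EE_re hσ]
    exact mul_le_mul_of_nonneg_left (cos_ge hκ hb hw) (Real.exp_pos _).le
  have key : ∀ ε : ℝ, 0 < ε → ε < 1 → ‖φ z‖ < 1 - ε → ‖Q z‖ ≤ (1 - ε)⁻¹ := by
    intro ε hε0 hε1 hε2
    have h1ε : 0 < 1 - ε := by linarith
    set A : Set ℂ := {w | w ∈ Dom ∧ ‖φ w‖ ≤ 1 - ε} with hA
    have hAc : IsClosed A := hK _ (by linarith)
    set U : Set ℂ := (Dom ∩ {w | ‖φ w‖ < 1 - ε}) ∩ {w | |w.re - xc| < b / 2} ∩
      {w | σ * (w.im - Y) < 0} ∩ {w | 0 < σ * hh w} with hU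
    have hU1 : IsOpen (Dom ∩ {w | ‖φ w‖ < 1 - ε}) :=
      hd.continuousOn.norm.isOpen_inter_preimage isOpen_Dom isOpen_Iio
    have hUo : IsOpen U := by
      refine ((hU1.inter ?_).inter ?_).inter ?_
      · exact isOpen_lt (by fun_prop) continuous_const
      · exact isOpen_lt (by fun_prop) continuous_const
      · exact isOpen_lt continuous_const (continuous_const.mul hh_continuous)
    set B : Set ℂ := A ∩ {w | |w.re - xc| ≤ b / 2} ∩ {w | σ * (w.im - Y) ≤ 0} ∩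
      {w | 0 ≤ σ * hh w} with hB
    have hBc : IsClosed B := by
      refine ((hAc.inter ?_).inter ?_).inter ?_
      · exact isClosed_le (by fun_prop) continuous_const
      · exact isClosed_le (by fun_prop) continuous_const
      · exact isClosed_le continuous_const (continuous_const.mul hh_continuous)
    have hUB : closure U ⊆ B := by
      refine closure_minimal ?_ hBc
      rintro w ⟨⟨⟨⟨h1, h2⟩, h3⟩, h4⟩, h5⟩
      exact ⟨⟨⟨⟨h1, (show ‖φ w‖ ≤ 1 - ε from le_of_lt h2)⟩,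
        (show |w.re - xc| ≤ b / 2 from le_of_lt h3)⟩,
        (show σ * (w.im - Y) ≤ 0 from le_of_lt h4)⟩, (show 0 ≤ σ * hh w from le_of_lt h5)⟩
    have hBD : ∀ w ∈ B, w ∈ Dom ∧ ‖φ w‖ ≤ 1 - ε ∧ |w.re - xc| < b / 2 ∧ σ * (w.im - Y) ≤ 0 ∧
        0 < σ * hh w ∧ w.re ≤ 1 ∧ 0 < ‖φ w‖ := by
      rintro w ⟨⟨⟨⟨h1, h2⟩, h3⟩, h4⟩, h5⟩
      obtain ⟨h6, h7, h8⟩ := wall w h1 h3 h5 h4
      exact ⟨h1, h2, h6, h4, h7, h8, (Real.exp_pos _).trans_le (hlow w h1 h8)⟩
    have hQd : DifferentiableOn ℂ Q (Dom ∩ {w | φ w ≠ 0}) := by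
      intro w hw
      refine DifferentiableWithinAt.mul ?_ ?_
      · exact ((hd w hw.1).mono inter_subset_left).inv hw.2
      · have h1 : Differentiable ℂ (fun w => Complex.exp (-((lam : ℂ) * EE σ κ xc Y w))) := by
          have := EE_diff σ κ xc Y
          fun_prop
        exact h1.differentiableAt.differentiableWithinAt
    have hBs : B ⊆ Dom ∩ {w | φ w ≠ 0} := by
      intro w hw
      obtain ⟨h1, -, -, -, -, -, h2⟩ := hBD w hw
      exact ⟨h1, norm_pos_iff.1 h2⟩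
    have hcl : DiffContOnCl ℂ Q U :=
      ⟨hQd.mono (subset_closure.trans (hUB.trans hBs)), (hQd.mono (hUB.trans hBs)).continuousOn⟩
    have hbd : Bornology.IsBounded U := by
      refine Dom_bounded.subset ?_
      rintro w ⟨⟨⟨⟨h1, h2⟩, h3⟩, h4⟩, h5⟩
      exact h1
    have hzU : z ∈ U := ⟨⟨⟨⟨hz, hε2⟩, hz5⟩, hlt4⟩, hz2⟩
    refine Complex.norm_le_of_forall_mem_frontier_norm_le hbd hcl ?_ (subset_closure hzU)
    intro w hw
    rw [frontier, hUo.interior_eq] at hw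
    obtain ⟨h1, h2, h3, h4, h5, h6, h7⟩ := hBD w (hUB hw.1)
    rw [hQn]
    have hE := hEre w h3.le
    have hE0 : 0 ≤ (EE σ κ xc Y w).re := le_trans (by positivity) hE
    by_cases h8 : σ * (w.im - Y) < 0
    · have h9 : 1 - ε ≤ ‖φ w‖ := by
        by_contra hcon
        rw [not_le] at hcon
        exact hw.2 ⟨⟨⟨⟨h1, hcon⟩, h3⟩, h8⟩, h5⟩
      have h10 : ‖φ w‖⁻¹ ≤ (1 - ε)⁻¹ := inv_anti₀ h1ε h9
      have h11 : Real.exp (-(lam * (EE σ κ xc Y w).re)) ≤ 1 := by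
        rw [Real.exp_le_one_iff]
        have := mul_nonneg hlam0 hE0
        linarith
      calc ‖φ w‖⁻¹ * Real.exp (-(lam * (EE σ κ xc Y w).re)) ≤ (1 - ε)⁻¹ * 1 :=
            mul_le_mul h10 h11 (Real.exp_pos _).le (by positivity)
        _ = (1 - ε)⁻¹ := mul_one _
    · have h9 : σ * (w.im - Y) = 0 := le_antisymm h4 (not_lt.1 h8)
      rw [h9, mul_zero, Real.exp_zero, one_mul] at hE
      have h10 : ‖φ w‖⁻¹ ≤ Real.exp M := by
        rw [← neg_neg M, Real.exp_neg]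
        exact inv_anti₀ (Real.exp_pos _) (hlow w h1 h6)
      have h11 : M ≤ lam * (EE σ κ xc Y w).re := by
        calc M = lam * (√2 / 2) := by rw [hlam]; linear_combination -M * hs2
          _ ≤ _ := mul_le_mul_of_nonneg_left hE hlam0
      have h12 : Real.exp (-(lam * (EE σ κ xc Y w).re)) ≤ Real.exp (-M) :=
        Real.exp_le_exp.2 (by linarith)
      calc ‖φ w‖⁻¹ * Real.exp (-(lam * (EE σ κ xc Y w).re)) ≤ Real.exp M * Real.exp (-M) :=
            mul_le_mul h10 h12 (Real.exp_pos _).le (Real.exp_pos _).le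
        _ = 1 := by rw [← Real.exp_add, add_neg_cancel, Real.exp_zero]
        _ ≤ (1 - ε)⁻¹ := by
            rw [one_le_inv₀ h1ε]
            linarith
  have hle : ‖Q z‖ ≤ 1 := by
    have hz7 := hlt z hz
    have ht : Tendsto (fun ε : ℝ => (1 - ε)⁻¹) (𝓝[>] 0) (𝓝 1) := by
      have h1 : Tendsto (fun ε : ℝ => (1 - ε)⁻¹) (𝓝 0) (𝓝 ((1 - 0)⁻¹)) := by
        apply Tendsto.inv₀ _ (by norm_num)
        exact (continuous_const.sub continuous_id).tendsto 0
      rw [sub_zero, inv_one] at h1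
      exact h1.mono_left nhdsWithin_le_nhds
    refine ge_of_tendsto ht ?_
    have h2 : ∀ᶠ ε : ℝ in 𝓝[>] 0, ε < 1 - ‖φ z‖ :=
      nhdsWithin_le_nhds (Iio_mem_nhds (by linarith))
    filter_upwards [h2, self_mem_nhdsWithin] with ε h3 h4
    have h4' : 0 < ε := h4
    exact key ε h4' (by linarith) (by linarith)
  rw [hQn] at hle
  have h1 : Real.exp (-(lam * (EE σ κ xc Y z).re)) ≤ ‖φ z‖ := by
    rwa [inv_mul_le_iff₀ hφz, mul_one] at hle
  have h2 := Real.log_le_log (Real.exp_pos _) h1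
  rw [Real.log_exp] at h2
  have h3 : (EE σ κ xc Y z).re ≤ Real.exp (-(κ * (σ * (Y - z.im)))) := by
    rw [EE_re hσ]
    have h4 : κ * (σ * (z.im - Y)) = -(κ * (σ * (Y - z.im))) := by ring
    rw [h4]
    calc Real.exp (-(κ * (σ * (Y - z.im)))) * Real.cos (κ * (z.re - xc))
        ≤ Real.exp (-(κ * (σ * (Y - z.im)))) * 1 :=
          mul_le_mul_of_nonneg_left (Real.cos_le_one _) (Real.exp_pos _).le
      _ = _ := mul_one _
  calc -Real.log ‖φ z‖ ≤ lam * (EE σ κ xc Y z).re := by linarith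
    _ ≤ lam * Real.exp (-(κ * (σ * (Y - z.im)))) := mul_le_mul_of_nonneg_left h3 hlam0

end Pool.Agent.Run7.h762
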