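import Mathlib
import Pool.Agent.Run7.h762.Har
import Pool.Agent.Helper202.Riemann
import Pool.Agent.Helper265.BrK
import Pool.Agent.Helper203.NSBase

/-!
# The Riemann map and the deep bands
-/

set_option autoImplicit false
open Set Filter Metric Topology

namespace Pool.Agent.Run7.h762

/-- a Riemann map of the domain, with its inverse -/
structure RM (φ ψ : ℂ → ℂ) : Prop where
  dφ : DifferentiableOn ℂ φ Dom
  mφ : MapsTo φ Dom (ball 0 1)
  dψ : DifferentiableOn ℂ ψ (ball 0 1)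
  mψ : MapsTo ψ (ball 0 1) Dom
  φψ : ∀ ξ ∈ ball (0 : ℂ) 1, φ (ψ ξ) = ξ
  ψφ : ∀ z ∈ Dom, ψ (φ z) = z

theorem exists_RM : ∃ φ ψ : ℂ → ℂ, RM φ ψ ∧ φ zc = 0 := by
  obtain ⟨g, φ, h1, h2, h3, h4, h5, h6, h7, h8⟩ :=
    Pool.Agent.Helper202.Riemann.riemann_inv isOpen_Dom Dom_simply Dom_ne_univ zc_mem
  refine ⟨φ, g, ⟨h5, h6, h1, h2.mapsTo, h8, h7⟩, ?_⟩
  rw [← h4]
  exact h8 0 (by simp)

variable {φ ψ : ℂ → ℂ}

theorem RM.of_conf (hd : DifferentiableOn ℂ φ Dom) (hb : BijOn φ Dom (ball 0 1)) :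
    RM φ (Function.invFunOn φ Dom) where
  dφ := hd
  mφ := hb.mapsTo
  dψ := fun w hw => (Pool.Agent.Helper265.Br.differentiableAt_inv isOpen_Dom hd hb.injOn
    (by rw [hb.image_eq]; exact hw)).differentiableWithinAt
  mψ := fun w hw => Pool.Agent.Helper265.Br.invFunOn_mem (by rw [hb.image_eq]; exact hw)
  φψ := fun w hw => Pool.Agent.Helper265.Br.invFunOn_right (by rw [hb.image_eq]; exact hw)
  ψφ := fun z hz => Pool.Agent.Helper265.Br.invFunOn_left hb.injOn hz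

theorem RM.lt (h : RM φ ψ) {z : ℂ} (hz : z ∈ Dom) : ‖φ z‖ < 1 := by
  simpa using h.mφ hz

theorem RM.injφ (h : RM φ ψ) : InjOn φ Dom := fun z hz w hw hzw => by
  rw [← h.ψφ z hz, ← h.ψφ w hw, hzw]

theorem RM.injψ (h : RM φ ψ) : InjOn ψ (ball 0 1) := fun z hz w hw hzw => by
  rw [← h.φψ z hz, ← h.φψ w hw, hzw]

theorem RM.bij (h : RM φ ψ) : BijOn φ Dom (ball 0 1) :=
  ⟨h.mφ, h.injφ, fun w hw => ⟨ψ w, h.mψ hw, h.φψ w hw⟩⟩

theorem RM.im (h : RM φ ψ) : ψ '' ball 0 1 = Dom := by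
  apply Subset.antisymm
  · rintro _ ⟨w, hw, rfl⟩
    exact h.mψ hw
  · intro z hz
    exact ⟨φ z, h.mφ hz, h.ψφ z hz⟩

theorem RM.ne (h : RM φ ψ) : ∀ z ∈ Dom, deriv φ z ≠ 0 := fun _ hz =>
  Pool.Agent.Helper265.Br.deriv_ne_zero isOpen_Dom h.dφ h.injφ hz

theorem RM.neψ (h : RM φ ψ) : ∀ z ∈ ball (0 : ℂ) 1, deriv ψ z ≠ 0 := fun _ hz =>
  Pool.Agent.Helper265.Br.deriv_ne_zero isOpen_ball h.dψ h.injψ hz

theorem RM.cpt (h : RM φ ψ) {r : ℝ} (hr : r < 1) : IsCompact {z | z ∈ Dom ∧ ‖φ z‖ ≤ r} := by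
  have h1 : {z | z ∈ Dom ∧ ‖φ z‖ ≤ r} = ψ '' closedBall 0 r := by
    ext z
    constructor
    · rintro ⟨hz, hr⟩
      exact ⟨φ z, by simpa using hr, h.ψφ z hz⟩
    · rintro ⟨w, hw, rfl⟩
      have hw1 : ‖w‖ ≤ r := by simpa using hw
      have hw2 : w ∈ ball (0 : ℂ) 1 := by
        simp only [mem_ball_zero_iff]
        linarith
      refine ⟨h.mψ hw2, ?_⟩
      rw [h.φψ w hw2]
      exact hw1
  rw [h1]
  refine (isCompact_closedBall 0 r).image_of_continuousOn ?_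
  exact h.dψ.continuousOn.mono (closedBall_subset_ball hr)

theorem RM.low (h : RM φ ψ) (hzero : φ zc = 0) :
    ∃ M : ℝ, 0 ≤ M ∧ ∀ z ∈ Dom, z.re ≤ 1 → Real.exp (-M) ≤ ‖φ z‖ := by
  set T : Set ℂ := {z | z ∈ Dom ∧ ‖φ z‖ ≤ 1 / 2} ∩ {z | z.re ≤ 1} with hT
  have hTc : IsCompact T :=
    (h.cpt (by norm_num)).inter_right (isClosed_le Complex.continuous_re continuous_const)
  have hcont : ContinuousOn (fun z => ‖φ z‖) T :=
    h.dφ.continuousOn.norm.mono fun z hz => hz.1.1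
  rcases T.eq_empty_or_nonempty with hE | hne
  · refine ⟨Real.log 2, Real.log_nonneg (by norm_num), fun z hz hz1 => ?_⟩
    rw [Real.exp_neg, Real.exp_log (by norm_num)]
    by_contra hcon
    have : z ∈ T := ⟨⟨hz, by linarith⟩, hz1⟩
    rw [hE] at this
    exact this
  · obtain ⟨z0, hz0, hmin⟩ := hTc.exists_isMinOn hne hcont
    have h0 : 0 < ‖φ z0‖ := by
      rw [norm_pos_iff]
      intro h0
      have h1 : z0 = zc := h.injφ hz0.1.1 zc_mem (by rw [h0, hzero])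
      have h2 : z0.re ≤ 1 := hz0.2
      rw [h1] at h2
      have h3 : zc.re = 3 / 2 := rfl
      linarith
    refine ⟨-Real.log ‖φ z0‖, ?_, fun z hz hz1 => ?_⟩
    · have := Real.log_nonpos h0.le (h.lt hz0.1.1).le
      linarith
    · rw [neg_neg, Real.exp_log h0]
      by_cases h1 : ‖φ z‖ ≤ 1 / 2
      · exact hmin ⟨⟨hz, h1⟩, hz1⟩
      · have := hz0.1.2
        linarith

/-- **The deep bands.** -/
theorem RM.deep (h : RM φ ψ) (hzero : φ zc = 0) : ∃ M : ℝ, 0 ≤ M ∧ ∀ (k : ℕ) (z : ℂ), z ∈ Dom →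
    z.re < 1 - 1 / fq k → |z.im - fk k z.re - am k / 4| ≤ am k / 8 →
    -Real.log ‖φ z‖ ≤ √2 * M * Real.exp (-(Real.pi * (am k * fq k) / 32)) := by
  obtain ⟨M, hM, hlow⟩ := h.low hzero
  refine ⟨M, hM, fun k z hz hx hy => ?_⟩
  have hn := fq_pos k
  have ha := am_pos k
  have hS := SS_div k
  have hS0 := SS_nonneg k
  have hn1 := fq_inv_le k
  set b : ℝ := 1 / fq k with hb
  have hb0 : 0 < b := by positivity
  have hnb : (fq k : ℝ) * b = 1 := by rw [hb]; field_simp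
  set x : ℝ := z.re with hxdef
  obtain ⟨hy1, hy2⟩ := abs_le.1 hy
  have hlt : ∀ z ∈ Dom, ‖φ z‖ < 1 := fun z hz => h.lt hz
  have hK : ∀ r : ℝ, r < 1 → IsClosed {z | z ∈ Dom ∧ ‖φ z‖ ≤ r} := fun r hr =>
    (h.cpt hr).isClosed
  have hne : hh z ≠ 0 := fun h0 => by
    have := hz.2.2.2 h0
    linarith
  have hpi := Real.pi_pos
  -- final comparison
  have fin : ∀ d : ℝ, am k / 16 ≤ d →
      √2 * M * Real.exp (-(Real.pi / (2 * b) * d)) ≤
        √2 * M * Real.exp (-(Real.pi * (am k * fq k) / 32)) := by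
    intro d hd
    refine mul_le_mul_of_nonneg_left ?_ (by positivity)
    apply Real.exp_le_exp.2
    have h1 : Real.pi / (2 * b) = Real.pi * fq k / 2 := by
      rw [hb]
      field_simp
    rw [h1]
    have h2 : Real.pi * fq k / 2 * (am k / 16) ≤ Real.pi * fq k / 2 * d :=
      mul_le_mul_of_nonneg_left hd (by positivity)
    have h3 : Real.pi * fq k / 2 * (am k / 16) = Real.pi * (am k * fq k) / 32 := by ring
    linarith
  rcases lt_or_gt_of_ne hne with hneg | hpos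
  · -- below the graph : valleys
    set m : ℤ := ⌊fq k * x⌋ with hm
    have hm1 : (m : ℝ) ≤ fq k * x := Int.floor_le _
    have hm2 : fq k * x < m + 1 := Int.lt_floor_add_one _
    set xc : ℝ := ((m : ℝ) + 1 / 2) * b with hxc
    set Y : ℝ := fk k x + SS k * b + am k / 64 with hY
    have e1 : xc - b / 2 = (m : ℝ) * b := by rw [hxc]; ring
    have e2 : xc + b / 2 = ((m + 1 : ℤ) : ℝ) * b := by rw [hxc]; push_cast; ring
    have hxm1 : (m : ℝ) * b ≤ x :=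
      calc (m : ℝ) * b ≤ (fq k * x) * b := mul_le_mul_of_nonneg_right hm1 hb0.le
        _ = x := by linear_combination x * hnb
    have hxm2 : x ≤ ((m : ℝ) + 1) * b :=
      calc x = (fq k * x) * b := by linear_combination -x * hnb
        _ ≤ ((m : ℝ) + 1) * b := mul_le_mul_of_nonneg_right hm2.le hb0.le
    have hv1 := ff_valley k m
    have hv2 := ff_valley k (m + 1)
    rw [← hb] at hv1 hv2
    have hl1 := fk_lip k ((m : ℝ) * b) x
    have hl2 := fk_lip k (((m + 1 : ℤ) : ℝ) * b) x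
    have hab1 : |(m : ℝ) * b - x| ≤ b := by
      rw [abs_le]; constructor <;> linarith
    have hab2 : |((m + 1 : ℤ) : ℝ) * b - x| ≤ b := by
      push_cast
      rw [abs_le]; constructor <;> linarith
    have hs1 : SS k * |(m : ℝ) * b - x| ≤ SS k * b := mul_le_mul_of_nonneg_left hab1 hS0
    have hs2 : SS k * |((m + 1 : ℤ) : ℝ) * b - x| ≤ SS k * b :=
      mul_le_mul_of_nonneg_left hab2 hS0
    have hA1 := (abs_le.1 hl1).2
    have hA2 := (abs_le.1 hl2).2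
    refine (channel h.dφ hK hlt hM hlow (σ := -1) (b := b) (xc := xc) (Y := Y) (Or.inr rfl) hb0
      ?_ ?_ ?_ hz ?_ ?_ ?_).trans (fin _ ?_)
    · rw [e2]
      push_cast
      linarith
    · rw [e1, hY]
      linarith
    · rw [e2, hY]
      linarith
    · rw [abs_le, hxc]
      constructor <;> linarith
    · linarith
    · rw [hY]
      linarith
    · rw [hY]
      linarith
  · -- above the graph : peaks
    set m : ℤ := round (fq k * x) with hm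
    have hm0 := abs_sub_round ((fq k : ℝ) * x)
    rw [← hm] at hm0
    obtain ⟨hm1, hm2⟩ := abs_le.1 hm0
    set xc : ℝ := (m : ℝ) * b with hxc
    set Y : ℝ := fk k x + am k / 2 - SS k * b with hY
    have e1 : xc - b / 2 = (((m - 1 : ℤ) : ℝ) + 1 / 2) * b := by rw [hxc]; push_cast; ring
    have e2 : xc + b / 2 = ((m : ℝ) + 1 / 2) * b := by rw [hxc]; ring
    have hxm1 : ((m : ℝ) - 1 / 2) * b ≤ x :=
      calc ((m : ℝ) - 1 / 2) * b ≤ (fq k * x) * b :=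
            mul_le_mul_of_nonneg_right (by linarith) hb0.le
        _ = x := by linear_combination x * hnb
    have hxm2 : x ≤ ((m : ℝ) + 1 / 2) * b :=
      calc x = (fq k * x) * b := by linear_combination -x * hnb
        _ ≤ ((m : ℝ) + 1 / 2) * b := mul_le_mul_of_nonneg_right (by linarith) hb0.le
    have hv1 := ff_peak k (m - 1)
    have hv2 := ff_peak k m
    rw [← hb] at hv1 hv2
    have hl1 := fk_lip k ((((m - 1 : ℤ) : ℝ) + 1 / 2) * b) x
    have hl2 := fk_lip k (((m : ℝ) + 1 / 2) * b) x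
    have hab1 : |(((m - 1 : ℤ) : ℝ) + 1 / 2) * b - x| ≤ b := by
      push_cast
      rw [abs_le]; constructor <;> linarith
    have hab2 : |((m : ℝ) + 1 / 2) * b - x| ≤ b := by
      rw [abs_le]; constructor <;> linarith
    have hs1 : SS k * |(((m - 1 : ℤ) : ℝ) + 1 / 2) * b - x| ≤ SS k * b :=
      mul_le_mul_of_nonneg_left hab1 hS0
    have hs2 : SS k * |((m : ℝ) + 1 / 2) * b - x| ≤ SS k * b :=
      mul_le_mul_of_nonneg_left hab2 hS0
    have hA1 := (abs_le.1 hl1).1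
    have hA2 := (abs_le.1 hl2).1
    refine (channel h.dφ hK hlt hM hlow (σ := 1) (b := b) (xc := xc) (Y := Y) (Or.inl rfl) hb0
      ?_ ?_ ?_ hz ?_ ?_ ?_).trans (fin _ ?_)
    · rw [e2]
      linarith
    · rw [e1, hY]
      linarith
    · rw [e2, hY]
      linarith
    · rw [abs_le, hxc]
      constructor <;> linarith
    · linarith
    · rw [hY]
      linarith
    · rw [hY]
      linarith

/-! ### Comparison of two Riemann maps -/

theorem disc_low {B : ℂ → ℂ} (hd : DifferentiableOn ℂ B (ball 0 1))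
    (hm : MapsTo B (ball (0 : ℂ) 1) (ball (0 : ℂ) 1)) :
    ∃ c : ℝ, 0 < c ∧ ∀ w ∈ ball (0 : ℂ) 1, c * (1 - ‖w‖) ≤ 1 - ‖B w‖ := by
  have ha1 : ‖B 0‖ < 1 := by
    have := hm (mem_ball_self one_pos : (0 : ℂ) ∈ ball (0 : ℂ) 1)
    simpa using this
  set a : ℂ := B 0 with ha
  refine ⟨(1 - ‖a‖) ^ 2 / 2, by
    have : 0 < 1 - ‖a‖ := by linarith
    positivity, fun w hw => ?_⟩
  have hw1 : ‖w‖ < 1 := by simpa using hw
  have hu1 : ‖B w‖ < 1 := by simpa using hm hw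
  have h1 := Pool.Agent.Helper203.NS.schwarz_pick hd hm hw1 (w := 0) (by simp)
  simp only [sub_zero, ← ha] at h1
  set u : ℂ := B w with hu
  have hid : ‖1 - (starRingEnd ℂ) a * u‖ ^ 2 - ‖u - a‖ ^ 2 = (1 - ‖a‖ ^ 2) * (1 - ‖u‖ ^ 2) := by
    simp only [← Complex.normSq_eq_norm_sq, Complex.normSq_apply]
    simp
    ring
  have h2 : 1 - ‖a‖ ≤ ‖1 - (starRingEnd ℂ) a * u‖ := by
    have h3 : ‖(starRingEnd ℂ) a * u‖ ≤ ‖a‖ := by
      rw [norm_mul, Complex.norm_conj]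
      have := norm_nonneg a
      nlinarith
    have h4 := norm_sub_norm_le (1 : ℂ) ((starRingEnd ℂ) a * u)
    rw [norm_one] at h4
    linarith
  set X : ℝ := ‖1 - (starRingEnd ℂ) a * u‖ with hX
  have hX0 : 0 ≤ X := norm_nonneg _
  have hw0 := norm_nonneg w
  have ha0 := norm_nonneg a
  have hu0 := norm_nonneg u
  have h5 : ‖u - a‖ ^ 2 ≤ ‖w‖ ^ 2 * X ^ 2 := by
    have h6 : ‖u - a‖ ≤ ‖w‖ * X := by
      have h7 : ‖(1 : ℂ) - (starRingEnd ℂ) 0 * w‖ = 1 := by simp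
      calc ‖u - a‖ = ‖u - a‖ * ‖(1 : ℂ) - (starRingEnd ℂ) 0 * w‖ := by rw [h7, mul_one]
        _ ≤ _ := h1
    rw [← mul_pow]
    exact pow_le_pow_left₀ (norm_nonneg _) h6 2
  have h8 : (1 - ‖w‖ ^ 2) * X ^ 2 ≤ (1 - ‖a‖ ^ 2) * (1 - ‖u‖ ^ 2) := by
    rw [← hid]
    linarith
  have h9 : (1 - ‖a‖) ^ 2 ≤ X ^ 2 := pow_le_pow_left₀ (by linarith) h2 2
  have h10 : (1 - ‖a‖) ^ 2 * (1 - ‖w‖) ≤ (1 - ‖w‖ ^ 2) * X ^ 2 := by
    calc (1 - ‖a‖) ^ 2 * (1 - ‖w‖) ≤ X ^ 2 * (1 - ‖w‖) :=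
          mul_le_mul_of_nonneg_right h9 (by linarith)
      _ ≤ X ^ 2 * (1 - ‖w‖ ^ 2) := mul_le_mul_of_nonneg_left (by nlinarith) (sq_nonneg _)
      _ = _ := by ring
  have h11 : (1 - ‖a‖ ^ 2) * (1 - ‖u‖ ^ 2) ≤ 1 * (2 * (1 - ‖u‖)) := by
    refine mul_le_mul ?_ ?_ ?_ zero_le_one
    · nlinarith
    · nlinarith
    · nlinarith
  linarith

theorem RM.cmp (h : RM φ ψ) {φ' ψ' : ℂ → ℂ} (h' : RM φ' ψ') :
    ∃ c : ℝ, 0 < c ∧ ∀ z ∈ Dom, c * (1 - ‖φ z‖) ≤ 1 - ‖φ' z‖ := by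
  obtain ⟨c, hc, hB⟩ := disc_low (B := fun w => φ' (ψ w)) (h'.dφ.comp h.dψ h.mψ)
    (h'.mφ.comp h.mψ)
  refine ⟨c, hc, fun z hz => ?_⟩
  have h1 := hB (φ z) (h.mφ hz)
  rwa [h.ψφ z hz] at h1

end Pool.Agent.Run7.h762
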