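import Mathlib
import Pool.Agent.N316.ZD.TcAbs
import Pool.Agent.R546.RX.Ker
import Pool.Agent.Helper265.BrN

/-!
# Chains of discs for Cauchy transforms
-/

set_option autoImplicit false
open Set Filter Metric Topology MeasureTheory

namespace Pool.Agent.Run7.h762

open Pool.Agent.R546.RX (BM Po Po_le ker_le integrableOn_ker)
open Pool.Agent.H761R2.SV.Quad (sing sing_nonneg integrable_sing integral_sing)

theorem log23 : Real.log 2 ≤ 3 / 4 * Real.log 3 := by
  have h1 : Real.log 16 ≤ Real.log 27 := Real.log_le_log (by norm_num) (by norm_num)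
  have h2 : Real.log 16 = 4 * Real.log 2 := by
    rw [show (16 : ℝ) = 2 ^ 4 by norm_num, Real.log_pow]
    norm_num
  have h3 : Real.log 27 = 3 * Real.log 3 := by
    rw [show (27 : ℝ) = 3 ^ 3 by norm_num, Real.log_pow]
    norm_num
  linarith

theorem disc_step {F : ℂ → ℂ} {c : ℂ} {r a b : ℝ} (hr : 0 < r)
    (hF : DifferentiableOn ℂ F (ball c r)) (ha0 : 0 < a) (hab : a ≤ b)
    (ha : ∀ z ∈ closedBall c (r / 4), ‖F z‖ ≤ a) (hb : ∀ z ∈ ball c r, ‖F z‖ ≤ b)
    {z : ℂ} (hz : z ∈ closedBall c (r / 2)) : ‖F z‖ ≤ a ^ (1 / 4 : ℝ) * b ^ (3 / 4 : ℝ) := by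
  have hb0 : 0 < b := ha0.trans_le hab
  have key : ∀ t : ℝ, t ≤ 3 / 4 → a ^ (1 - t) * b ^ t ≤ a ^ (1 / 4 : ℝ) * b ^ (3 / 4 : ℝ) := by
    intro t ht
    have h1 : a ^ (1 - t) = a ^ (1 / 4 : ℝ) * a ^ (3 / 4 - t) := by
      rw [← Real.rpow_add ha0]
      congr 1
      ring
    have h2 : b ^ (3 / 4 : ℝ) = b ^ (3 / 4 - t) * b ^ t := by
      rw [← Real.rpow_add hb0]
      congr 1
      ring
    have h3 : a ^ (3 / 4 - t) ≤ b ^ (3 / 4 - t) :=
      Real.rpow_le_rpow ha0.le hab (by linarith)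
    rw [h1, h2, mul_assoc]
    refine mul_le_mul_of_nonneg_left ?_ (Real.rpow_nonneg ha0.le _)
    exact mul_le_mul_of_nonneg_right h3 (Real.rpow_nonneg hb0.le _)
  rcases le_or_gt (dist z c) (r / 4) with h | h
  · have h1 := key 0 (by norm_num)
    rw [sub_zero, Real.rpow_one, Real.rpow_zero, mul_one] at h1
    exact (ha z h).trans h1
  · have h1 := Pool.Agent.N316.ZD.three_circles (g := F) (c := c) (r₁ := r / 4) (r₃ := 3 * r / 4)
      (R := r) (by positivity) (by linarith) (by linarith) hF (a := a) (b := b)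
      (fun w hw => ha w (by rw [mem_closedBall, hw]))
      (fun w hw => hb w (by
        rw [mem_ball]
        have := mem_closedBall.1 hw
        linarith)) (s := z) h.le
      ((mem_closedBall.1 hz).trans (by linarith))
    refine h1.trans (key _ ?_)
    have h2 : 3 * r / 4 / (r / 4) = 3 := by field_simp
    have h3 : dist z c / (r / 4) ≤ 2 := by
      rw [div_le_iff₀ (by positivity)]
      have := mem_closedBall.1 hz
      linarith
    have h4 : 0 < dist z c / (r / 4) := by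
      have : 0 < dist z c := lt_trans (by positivity) h
      positivity
    rw [h2, div_le_iff₀ (Real.log_pos (by norm_num))]
    exact (Real.log_le_log h4 h3).trans log23

theorem quarter {B q : ℝ} (hB : 0 < B) (hq : 0 < q) :
    (16 * B * q) ^ (1 / 4 : ℝ) * B ^ (3 / 4 : ℝ) = 2 * B * q ^ (1 / 4 : ℝ) := by
  have h1 : (16 : ℝ) ^ (1 / 4 : ℝ) = 2 := by
    rw [show (16 : ℝ) = 2 ^ (4 : ℝ) by norm_num, ← Real.rpow_mul (by norm_num)]
    norm_num
  have h2 : B ^ (1 / 4 : ℝ) * B ^ (3 / 4 : ℝ) = B := by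
    rw [← Real.rpow_add hB]
    norm_num
  rw [Real.mul_rpow (by positivity) hq.le, Real.mul_rpow (by norm_num) hB.le, h1]
  linear_combination 2 * q ^ (1 / 4 : ℝ) * h2

theorem chain {G : ℂ → ℂ} {B η : ℝ} (hB : 1 ≤ B) (hη : 0 < η) (h20 : 20 * η ≤ 1) {r : ℝ}
    (hr : 0 < r) {c : ℕ → ℂ} {N : ℕ} (h0 : ∀ z ∈ closedBall (c 0) (r / 4), G z = 0)
    (hc : ∀ j < N, dist (c (j + 1)) (c j) ≤ r / 4)
    (hF : ∀ j < N, ∃ F : ℂ → ℂ, DifferentiableOn ℂ F (ball (c j) r) ∧
      (∀ z ∈ ball (c j) r, ‖F z‖ ≤ B) ∧ ∀ z ∈ ball (c j) r, ‖G z - F z‖ ≤ 10 * η) :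
    ∀ j ≤ N, ∀ z ∈ closedBall (c j) (r / 4),
      ‖G z‖ + 10 * η ≤ 16 * B * (20 * η) ^ ((1 / 4 : ℝ) ^ j) := by
  intro j
  induction j with
  | zero =>
    intro _ z hz
    rw [h0 z hz, norm_zero, pow_zero, Real.rpow_one]
    nlinarith
  | succ j ih =>
    intro hj z hz
    have ih' := ih (by omega)
    obtain ⟨F, hF1, hF2, hF3⟩ := hF j (by omega)
    have hη20 : 0 < 20 * η := by positivity
    set q : ℝ := (20 * η) ^ ((1 / 4 : ℝ) ^ j) with hq
    have hq0 : 0 < q := Real.rpow_pos_of_pos hη20 _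
    have hB0 : 0 < B := by linarith
    have hq4 : (20 * η) ^ ((1 / 4 : ℝ) ^ (j + 1)) = q ^ (1 / 4 : ℝ) := by
      rw [hq, ← Real.rpow_mul hη20.le, pow_succ]
    have hU0 : 0 < 16 * B * q := by positivity
    have hzj : z ∈ closedBall (c j) (r / 2) := by
      rw [mem_closedBall] at hz ⊢
      have h1 := dist_triangle z (c (j + 1)) (c j)
      have h2 := hc j (by omega)
      linarith
    have hzb : z ∈ ball (c j) r := by
      rw [mem_closedBall] at hzj
      rw [mem_ball]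
      linarith
    have ha : ∀ w ∈ closedBall (c j) (r / 4), ‖F w‖ ≤ min (16 * B * q) B := by
      intro w hw
      have hwb : w ∈ ball (c j) r := by
        rw [mem_closedBall] at hw
        rw [mem_ball]
        linarith
      refine le_min ?_ (hF2 w hwb)
      have h1 := ih' w hw
      have h2 := hF3 w hwb
      have h3 : ‖F w‖ ≤ ‖G w‖ + ‖G w - F w‖ := by
        have : F w = G w - (G w - F w) := by ring
        calc ‖F w‖ = ‖G w - (G w - F w)‖ := by rw [← this]
          _ ≤ _ := norm_sub_le _ _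
      linarith
    have h1 := disc_step hr hF1 (lt_min hU0 hB0) (min_le_right _ _) ha hF2 hzj
    have h2 : (min (16 * B * q) B) ^ (1 / 4 : ℝ) * B ^ (3 / 4 : ℝ) ≤ 2 * B * q ^ (1 / 4 : ℝ) := by
      rw [← quarter hB0 hq0]
      refine mul_le_mul_of_nonneg_right ?_ (Real.rpow_nonneg hB0.le _)
      exact Real.rpow_le_rpow (lt_min hU0 hB0).le (min_le_left _ _) (by norm_num)
    have h3 := hF3 z hzb
    have h4 : ‖G z‖ ≤ ‖F z‖ + ‖G z - F z‖ := by
      have : G z = F z + (G z - F z) := by ring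
      calc ‖G z‖ = ‖F z + (G z - F z)‖ := by rw [← this]
        _ ≤ _ := norm_add_le _ _
    have h5 : 20 * η ≤ (20 * η) ^ ((1 / 4 : ℝ) ^ (j + 1)) := by
      have h6 : (20 * η) ^ (1 : ℝ) ≤ (20 * η) ^ ((1 / 4 : ℝ) ^ (j + 1)) :=
        Real.rpow_le_rpow_of_exponent_ge hη20 h20 (pow_le_one₀ (by norm_num) (by norm_num))
      rwa [Real.rpow_one] at h6
    rw [hq4] at h5 ⊢
    have h6 : 0 ≤ q ^ (1 / 4 : ℝ) := Real.rpow_nonneg hq0.le _
    have h7 : q ^ (1 / 4 : ℝ) ≤ B * q ^ (1 / 4 : ℝ) := by nlinarith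
    nlinarith

/-! ### Cauchy transforms -/

/-- the regularised kernel -/
noncomputable def kr (t : ℝ) (w : ℂ) : ℂ :=
  (starRingEnd ℂ) w / ((max (‖w‖ ^ 2) (t ^ 2) : ℝ) : ℂ)

theorem kr_continuous {t : ℝ} (ht : 0 < t) : Continuous (kr t) := by
  unfold kr
  refine Continuous.div (by fun_prop) (by fun_prop) fun w => ?_
  have : 0 < max (‖w‖ ^ 2) (t ^ 2) := lt_max_of_lt_right (by positivity)
  exact_mod_cast this.ne'

theorem kr_le {t : ℝ} (ht : 0 < t) (w : ℂ) : ‖kr t w‖ ≤ t⁻¹ := by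
  unfold kr
  have h0 : 0 < max (‖w‖ ^ 2) (t ^ 2) := lt_max_of_lt_right (by positivity)
  rw [norm_div, Complex.norm_conj, Complex.norm_real, Real.norm_of_nonneg h0.le,
    div_le_iff₀ h0, ← div_eq_inv_mul, le_div_iff₀ ht]
  rcases le_total ‖w‖ t with h | h
  · refine le_trans ?_ (le_max_right _ _)
    nlinarith [norm_nonneg w]
  · refine le_trans ?_ (le_max_left _ _)
    nlinarith [norm_nonneg w]

theorem kr_sub {t : ℝ} (ht : 0 < t) (z s : ℂ) : ‖(z - s)⁻¹ - kr t (z - s)‖ ≤ sing t z s := by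
  set w : ℂ := z - s with hw
  have h0 : 0 < max (‖w‖ ^ 2) (t ^ 2) := lt_max_of_lt_right (by positivity)
  have hinv : w⁻¹ = (starRingEnd ℂ) w * ((‖w‖ ^ 2 : ℝ) : ℂ)⁻¹ := by
    rw [Complex.inv_def, Complex.normSq_eq_norm_sq, Complex.ofReal_inv]
  unfold sing
  rw [← hw]
  by_cases h : w ∈ ball (0 : ℂ) t
  · rw [indicator_of_mem h]
    rw [mem_ball_zero_iff] at h
    by_cases hw0 : w = 0
    · rw [hw0]
      unfold kr
      simp
    have hwp : 0 < ‖w‖ := norm_pos_iff.2 hw0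
    have h1 : max (‖w‖ ^ 2) (t ^ 2) = t ^ 2 := max_eq_right (pow_le_pow_left₀ hwp.le h.le 2)
    unfold kr
    rw [h1, hinv]
    have h2 : (starRingEnd ℂ) w * ((‖w‖ ^ 2 : ℝ) : ℂ)⁻¹ - (starRingEnd ℂ) w / ((t ^ 2 : ℝ) : ℂ) =
        (starRingEnd ℂ) w * (((‖w‖ ^ 2)⁻¹ - (t ^ 2)⁻¹ : ℝ) : ℂ) := by
      push_cast
      ring
    rw [h2, norm_mul, Complex.norm_conj, Complex.norm_real]
    have h3 : (t ^ 2)⁻¹ ≤ (‖w‖ ^ 2)⁻¹ := inv_anti₀ (by positivity)
      (pow_le_pow_left₀ hwp.le h.le 2)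
    have h4 : 0 < (t ^ 2)⁻¹ := by positivity
    rw [Real.norm_of_nonneg (by linarith)]
    calc ‖w‖ * ((‖w‖ ^ 2)⁻¹ - (t ^ 2)⁻¹) ≤ ‖w‖ * (‖w‖ ^ 2)⁻¹ :=
          mul_le_mul_of_nonneg_left (by linarith) hwp.le
      _ = ‖w‖⁻¹ := by field_simp
  · rw [indicator_of_notMem h]
    rw [mem_ball_zero_iff, not_lt] at h
    have h1 : max (‖w‖ ^ 2) (t ^ 2) = ‖w‖ ^ 2 := max_eq_left (pow_le_pow_left₀ ht.le h 2)
    unfold kr
    rw [h1, hinv, div_eq_mul_inv, sub_self, norm_zero]

theorem Po_continuous {h : ℂ → ℂ} (hh : BM h) : Continuous (Po h) := by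
  obtain ⟨M, hM0, hM⟩ := hh.bdd
  obtain ⟨R, hR0, hR⟩ := hh.supp
  have hfin : volume (closedBall (0 : ℂ) R) ≠ ⊤ := (isCompact_closedBall _ _).measure_lt_top.ne
  -- the bound function
  have hbi : ∀ t : ℝ, Integrable ((closedBall (0 : ℂ) R).indicator fun _ : ℂ => M * t⁻¹) :=
    fun t => (integrableOn_const hfin).integrable_indicator measurableSet_closedBall
  have hbd : ∀ t : ℝ, 0 < t → ∀ z s : ℂ, ‖h s * kr t (z - s)‖ ≤
      (closedBall (0 : ℂ) R).indicator (fun _ : ℂ => M * t⁻¹) s := by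
    intro t ht z s
    by_cases hs : s ∈ closedBall (0 : ℂ) R
    · rw [indicator_of_mem hs, norm_mul]
      exact mul_le_mul (hM s) (kr_le ht _) (norm_nonneg _) hM0
    · rw [indicator_of_notMem hs]
      rw [mem_closedBall_zero_iff, not_le] at hs
      rw [hR s hs, zero_mul, norm_zero]
  have hcm : ∀ t : ℝ, 0 < t → ∀ z : ℂ, AEStronglyMeasurable (fun s => h s * kr t (z - s)) volume := by
    intro t ht z
    refine hh.meas.mul (Continuous.aestronglyMeasurable ?_)
    exact (kr_continuous ht).comp (by fun_prop)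
  have hci : ∀ t : ℝ, 0 < t → ∀ z : ℂ, Integrable (fun s => h s * kr t (z - s)) := fun t ht z =>
    Integrable.mono' (hbi t) (hcm t ht z) (Eventually.of_forall fun s => hbd t ht z s)
  have hcc : ∀ t : ℝ, 0 < t → Continuous (fun z => ∫ s, h s * kr t (z - s)) := by
    intro t ht
    refine continuous_of_dominated (hcm t ht)
      (fun z => Eventually.of_forall fun s => hbd t ht z s) (hbi t) ?_
    refine Eventually.of_forall fun s => ?_
    exact continuous_const.mul ((kr_continuous ht).comp (by fun_prop))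
  have hlim : TendstoUniformly (fun (n : ℕ) (z : ℂ) => ∫ s, h s * kr (1 / ((n : ℝ) + 1)) (z - s))
      (Po h) atTop := by
    rw [Metric.tendstoUniformly_iff]
    intro ε hε
    have h1 : Tendsto (fun n : ℕ => M * (2 * Real.pi * (1 / ((n : ℝ) + 1)))) atTop
        (𝓝 (M * (2 * Real.pi * 0))) :=
      (tendsto_one_div_add_atTop_nhds_zero_nat.const_mul _).const_mul _
    rw [mul_zero, mul_zero] at h1
    filter_upwards [h1.eventually (gt_mem_nhds hε)] with n hn z
    have ht : 0 < 1 / ((n : ℝ) + 1) := by positivity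
    set t : ℝ := 1 / ((n : ℝ) + 1) with htd
    rw [dist_eq_norm]
    unfold Po
    rw [← integral_sub (hh.integrable z) (hci t ht z)]
    refine lt_of_le_of_lt ?_ hn
    rw [← integral_sing ht.le z, ← integral_const_mul]
    refine norm_integral_le_of_norm_le ((integrable_sing t z).const_mul M)
      (Eventually.of_forall fun s => ?_)
    rw [← mul_sub, norm_mul]
    exact mul_le_mul (hM s) (kr_sub ht z s) (norm_nonneg _) hM0
  refine hlim.continuous (Frequently.of_forall fun n => hcc _ (by positivity))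

/-- the Cauchy transform of a bounded function with bounded support is bounded -/
theorem Po_bdd {h : ℂ → ℂ} (hh : BM h) : ∃ C : ℝ, 0 ≤ C ∧ ∀ z, ‖Po h z‖ ≤ C := by
  obtain ⟨M, hM0, hM⟩ := hh.bdd
  obtain ⟨R, hR0, hR⟩ := hh.supp
  have hfin : volume (closedBall (0 : ℂ) R) ≠ ⊤ := (isCompact_closedBall _ _).measure_lt_top.ne
  refine ⟨M * (2 * Real.pi * 1 + volume.real (closedBall (0 : ℂ) R) * 1⁻¹), ?_, fun z => ?_⟩
  · have := Real.pi_pos
    positivity
  · refine (Po_le measurableSet_closedBall hfin (M := M) (fun s _ => hM s) (fun s hs => ?_) z).trans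
      (mul_le_mul_of_nonneg_left (ker_le hfin one_pos z) hM0)
    rw [mem_closedBall_zero_iff, not_le] at hs
    exact hR s hs

/-- splitting off a disc -/
theorem split_disc {k : ℂ → ℂ} (hk : BM k) {c : ℂ} {r η : ℝ} (hr : 0 < r) (hr1 : r ≤ 1)
    (hη : 0 ≤ η) (hsm : ∀ s ∈ ball c r, ‖k s‖ ≤ η) {C : ℝ} (hC : ∀ z, ‖Po k z‖ ≤ C) :
    ∃ F : ℂ → ℂ, DifferentiableOn ℂ F (ball c r) ∧ (∀ z ∈ ball c r, ‖F z‖ ≤ C + 10 * η) ∧
      ∀ z ∈ ball c r, ‖Po k z - F z‖ ≤ 10 * η := by
  obtain ⟨M, hM0, hM⟩ := hk.bdd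
  obtain ⟨R, hR0, hR⟩ := hk.supp
  have hBm : MeasurableSet (ball c r) := measurableSet_ball
  have hfin : volume (ball c r) ≠ ⊤ := measure_ball_lt_top.ne
  have hki : Integrable k := by
    have h1 : Integrable ((closedBall (0 : ℂ) R).indicator fun _ : ℂ => M) :=
      (integrableOn_const (isCompact_closedBall _ _).measure_lt_top.ne).integrable_indicator
        measurableSet_closedBall
    refine Integrable.mono' h1 hk.meas (Eventually.of_forall fun s => ?_)
    by_cases hs : s ∈ closedBall (0 : ℂ) R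
    · rw [indicator_of_mem hs]
      exact hM s
    · rw [indicator_of_notMem hs]
      rw [mem_closedBall_zero_iff, not_le] at hs
      rw [hR s hs, norm_zero]
  have hcl : IsClosed (ball c r)ᶜ := isOpen_ball.isClosed_compl
  refine ⟨fun z => -∫ ζ in (ball c r)ᶜ, k ζ / (ζ - z), ?_, ?_, ?_⟩
  · have h1 := Pool.Agent.Helper265.Br.CT_diff (g := k) (A := (ball c r)ᶜ) hBm.compl
      hki.integrableOn
    rw [hcl.closure_eq, compl_compl] at h1
    exact h1.neg
  all_goals
    have hsub : ∀ z, Po k z - (-∫ ζ in (ball c r)ᶜ, k ζ / (ζ - z)) =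
        Po ((ball c r).indicator k) z := by
      intro z
      have h1 : (-∫ ζ in (ball c r)ᶜ, k ζ / (ζ - z)) = ∫ ζ in (ball c r)ᶜ, k ζ * (z - ζ)⁻¹ := by
        rw [← integral_neg]
        congr 1
        funext ζ
        rw [div_eq_mul_inv, ← mul_neg, ← inv_neg, neg_sub]
      have h2 : Po ((ball c r).indicator k) z = ∫ ζ in ball c r, k ζ * (z - ζ)⁻¹ := by
        unfold Po
        rw [← integral_indicator hBm]
        congr 1
        funext s
        by_cases hs : s ∈ ball c r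
        · rw [indicator_of_mem hs, indicator_of_mem hs]
        · rw [indicator_of_notMem hs, indicator_of_notMem hs, zero_mul]
      rw [h1, h2]
      unfold Po
      rw [← integral_add_compl hBm (hk.integrable z)]
      ring
    have hnear : ∀ z, ‖Po ((ball c r).indicator k) z‖ ≤ 10 * η := by
      intro z
      have h1 := Po_le (h := (ball c r).indicator k) hBm hfin (M := η)
        (fun s hs => by rw [indicator_of_mem hs]; exact hsm s hs)
        (fun s hs => indicator_of_notMem hs _) z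
      have h2 := ker_le hfin hr z
      have h3 : volume.real (ball c r) = Real.pi * r ^ 2 := by
        rw [Measure.real, Complex.volume_ball, ENNReal.toReal_mul, ENNReal.toReal_pow,
          ENNReal.toReal_ofReal hr.le]
        simp
        ring
      rw [h3] at h2
      have h4 : 2 * Real.pi * r + Real.pi * r ^ 2 * r⁻¹ = 3 * Real.pi * r := by
        field_simp
        ring
      rw [h4] at h2
      have h5 : 3 * Real.pi * r ≤ 10 := by
        have := Real.pi_lt_d2
        nlinarith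
      calc ‖Po ((ball c r).indicator k) z‖ ≤ η * ∫ s in ball c r, ‖(z - s)⁻¹‖ := h1
        _ ≤ η * 10 := mul_le_mul_of_nonneg_left (h2.trans h5) hη
        _ = 10 * η := by ring
    intro z hz
    have h1 := hsub z
    have h2 := hnear z
  · have h3 : (-∫ ζ in (ball c r)ᶜ, k ζ / (ζ - z)) = Po k z - Po ((ball c r).indicator k) z := by
      rw [← h1]
      ring
    show ‖-∫ ζ in (ball c r)ᶜ, k ζ / (ζ - z)‖ ≤ _
    rw [h3]
    refine (norm_sub_le _ _).trans ?_
    linarith [hC z]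
  · show ‖Po k z - (-∫ ζ in (ball c r)ᶜ, k ζ / (ζ - z))‖ ≤ _
    rw [h1]
    exact h2

end Pool.Agent.Run7.h762
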