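import Mathlib
import Pool.Agent.Run7.h762.Deep
import Pool.Agent.Run7.h762.Tc

/-!
# The Cauchy transform of an annihilating function vanishes off the domain
-/

set_option autoImplicit false
open Set Filter Metric Topology MeasureTheory

namespace Pool.Agent.Run7.h762

open Pool.Agent.R546.RX (BM Po Po_le ker_le integrableOn_ker)

theorem BM_integrable {k : ℂ → ℂ} (hk : BM k) : Integrable k := by
  obtain ⟨M, hM0, hM⟩ := hk.bdd
  obtain ⟨R, hR0, hR⟩ := hk.supp
  have h1 : Integrable ((closedBall (0 : ℂ) R).indicator fun _ : ℂ => M) :=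
    (integrableOn_const (isCompact_closedBall _ _).measure_lt_top.ne).integrable_indicator
      measurableSet_closedBall
  refine Integrable.mono' h1 hk.meas (Eventually.of_forall fun s => ?_)
  by_cases hs : s ∈ closedBall (0 : ℂ) R
  · rw [indicator_of_mem hs]
    exact hM s
  · rw [indicator_of_notMem hs]
    rw [mem_closedBall_zero_iff, not_le] at hs
    rw [hR s hs, norm_zero]

theorem Po_ext {k : ℂ → ℂ} (hk : BM k) (h0 : ∀ z, z ∉ Dom → k z = 0)
    (hP : ∀ P : Polynomial ℂ, ∫ s, k s * P.eval s = 0) : ∀ j, ∀ z ∈ Ex j, Po k z = 0 := by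
  intro j z hz
  have hK : IsCompact (closure Dom) := Dom_bounded.isCompact_closure
  have h0' : ∀ s, s ∉ closure Dom → k s = 0 := fun s hs => h0 s fun h => hs (subset_closure h)
  have h1 : ∀ P : Polynomial ℂ, ∫ ζ in closure Dom, k ζ * P.eval ζ = 0 := by
    intro P
    rw [setIntegral_eq_integral_of_forall_compl_eq_zero fun s hs => by rw [h0' s hs, zero_mul]]
    exact hP P
  have h2 := Pool.Agent.Helper265.Br.vanish hK (BM_integrable hk).integrableOn h1 (Ex_open j)
    (Ex_conn j) (Ex_disj j) (Ex_unbdd j) z hz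
  rw [setIntegral_eq_integral_of_forall_compl_eq_zero fun s hs => by rw [h0' s hs, zero_div]] at h2
  have h3 : Po k z = -∫ ζ, k ζ / (ζ - z) := by
    unfold Po
    rw [← integral_neg]
    congr 1
    funext ζ
    rw [div_eq_mul_inv, ← mul_neg, ← inv_neg, neg_sub]
  rw [h3, h2, neg_zero]

/-- the centres of the discs -/
noncomputable def ctr (n : ℕ) (x r : ℝ) (j : ℕ) : ℂ :=
  ⟨-r + j * ((x + r) / Nd n), fk n (-r + j * ((x + r) / Nd n)) + am n / 4⟩

/-- the radii -/
noncomputable def rd (n : ℕ) : ℝ := am n / (8 * (1 + SS n))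

theorem rd_pos (n : ℕ) : 0 < rd n := by
  unfold rd
  have := am_pos n
  have := SS_nonneg n
  positivity

theorem rd_mul (n : ℕ) : (1 + SS n) * rd n = am n / 8 := by
  unfold rd
  have := SS_nonneg n
  field_simp

theorem rd_le (n : ℕ) : rd n ≤ am n / 8 := by
  rw [← rd_mul]
  have := SS_nonneg n
  have := rd_pos n
  nlinarith

theorem Nd_pos (n : ℕ) : (0 : ℝ) < Nd n := by
  have h1 := Nd_ge n
  have h2 := am_pos n
  have h3 := SS_nonneg n
  have : 0 < 64 * (1 + SS n) ^ 2 / am n := by positivity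
  linarith

/-- the spacing -/
theorem spacing (n : ℕ) {x : ℝ} (hx1 : x < 1) :
    (1 + SS n) * ((x + rd n) / Nd n) ≤ rd n / 4 := by
  have h1 := Nd_ge n
  have h2 := am_pos n
  have h3 := SS_nonneg n
  have h4 := Nd_pos n
  have h5 := rd_mul n
  have h6 := rd_pos n
  have h7 := rd_le n
  have h8 := am_le n
  have h9 : x + rd n ≤ 2 := by linarith
  rw [div_le_iff₀ h2] at h1
  rw [← mul_div_assoc, div_le_iff₀ h4]
  -- (1+S)(x+r) ≤ r/4 * Nd
  have h10 : (1 + SS n) * (x + rd n) ≤ (1 + SS n) * 2 :=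
    mul_le_mul_of_nonneg_left h9 (by linarith)
  have h11 : (1 + SS n) * 2 * (1 + SS n) ≤ rd n / 4 * Nd n * (1 + SS n) := by
    have h12 : rd n / 4 * Nd n * (1 + SS n) = ((1 + SS n) * rd n) * Nd n / 4 := by ring
    rw [h12, h5]
    nlinarith
  have h13 : (1 + SS n) * 2 ≤ rd n / 4 * Nd n := le_of_mul_le_mul_right h11 (by linarith)
  exact h10.trans h13

theorem ctr_dist (n : ℕ) {x : ℝ} (hx0 : 0 < x) (hx1 : x < 1) (j : ℕ) :
    dist (ctr n x (rd n) (j + 1)) (ctr n x (rd n) j) ≤ rd n / 4 := by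
  have h1 := spacing n hx1
  have h2 : 0 ≤ (x + rd n) / Nd n := by
    have := rd_pos n
    have := Nd_pos n
    positivity
  rw [dist_eq_norm]
  refine (Complex.norm_le_abs_re_add_abs_im _).trans (le_trans ?_ h1)
  set Δ : ℝ := (x + rd n) / Nd n with hΔ
  have e1 : (ctr n x (rd n) (j + 1) - ctr n x (rd n) j).re = Δ := by
    show (-rd n + ((j + 1 : ℕ) : ℝ) * Δ) - (-rd n + (j : ℝ) * Δ) = Δ
    push_cast
    ring
  have e2 : (ctr n x (rd n) (j + 1) - ctr n x (rd n) j).im =
      fk n (-rd n + ((j + 1 : ℕ) : ℝ) * Δ) - fk n (-rd n + (j : ℝ) * Δ) := by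
    show (fk n (-rd n + ((j + 1 : ℕ) : ℝ) * Δ) + am n / 4) -
      (fk n (-rd n + (j : ℝ) * Δ) + am n / 4) = _
    ring
  rw [e1, e2, abs_of_nonneg h2, add_mul, one_mul]
  refine add_le_add le_rfl ((fk_lip n _ _).trans ?_)
  have e3 : (-rd n + ((j + 1 : ℕ) : ℝ) * Δ) - (-rd n + (j : ℝ) * Δ) = Δ := by
    push_cast
    ring
  rw [e3, abs_of_nonneg h2]

theorem am_tendsto : Tendsto am atTop (𝓝 0) := am_summable.tendsto_atTop_zero

/-- the numerical estimate -/
theorem numer {T C : ℝ} (hT : 0 < T) (hC : 0 < C) (n : ℕ) :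
    (20 * (C * Real.exp (-(1 / (T * Real.exp (-(Real.pi * (am n * fq n) / 32))))))) ^
      ((1 / 4 : ℝ) ^ (Nd n)) ≤ Real.exp (|Real.log (20 * C)| - n / T) ∧
    20 * (C * Real.exp (-(1 / (T * Real.exp (-(Real.pi * (am n * fq n) / 32)))))) ≤
      Real.exp (|Real.log (20 * C)| - n / T) := by
  have h1 := am_fq n
  have hN := Nd_ge' n
  have hπ := Real.pi_gt_three
  have hN0 : (0 : ℝ) ≤ Nd n := Nat.cast_nonneg _
  set X : ℝ := Real.exp (Real.pi * (am n * fq n) / 32) with hX
  have hX1 : (8 : ℝ) ^ (Nd n) ≤ X := by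
    have h2 : (3 : ℝ) * Nd n ≤ Real.pi * (am n * fq n) / 32 := by
      have h3 : Real.pi * (64 * ((Nd n : ℝ) + 1)) ≤ Real.pi * (am n * fq n) :=
        mul_le_mul_of_nonneg_left h1 (by linarith)
      nlinarith
    have h4 : (8 : ℝ) ≤ Real.exp 3 := by
      have h5 : (2 : ℝ) ≤ Real.exp 1 := by
        have := Real.add_one_le_exp (1 : ℝ)
        linarith
      have h6 : Real.exp 3 = Real.exp 1 ^ 3 := by
        rw [← Real.exp_nat_mul]
        norm_num
      rw [h6]
      calc (8 : ℝ) = 2 ^ 3 := by norm_num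
        _ ≤ _ := pow_le_pow_left₀ (by norm_num) h5 3
    calc (8 : ℝ) ^ (Nd n) ≤ (Real.exp 3) ^ (Nd n) := pow_le_pow_left₀ (by norm_num) h4 _
      _ = Real.exp (3 * Nd n) := by
          rw [← Real.exp_nat_mul]
          congr 1
          ring
      _ ≤ X := Real.exp_le_exp.2 h2
  have e1 : 1 / (T * Real.exp (-(Real.pi * (am n * fq n) / 32))) = X / T := by
    rw [Real.exp_neg, hX]
    field_simp
  rw [e1]
  have e2 : 20 * (C * Real.exp (-(X / T))) = Real.exp (Real.log (20 * C) - X / T) := by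
    rw [Real.exp_sub, Real.exp_log (by positivity), Real.exp_neg]
    ring
  rw [e2]
  have h2n : (n : ℝ) ≤ 2 ^ (Nd n) := by
    have h3 : ((Nd n : ℕ) : ℝ) < 2 ^ (Nd n) := by exact_mod_cast Nat.lt_two_pow_self
    linarith
  constructor
  · rw [← Real.exp_mul]
    apply Real.exp_le_exp.2
    set u : ℝ := (1 / 4 : ℝ) ^ (Nd n) with hu
    have hu0 : 0 < u := by positivity
    have hu1 : u ≤ 1 := pow_le_one₀ (by norm_num) (by norm_num)
    have h3 : Real.log (20 * C) * u ≤ |Real.log (20 * C)| := by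
      calc Real.log (20 * C) * u ≤ |Real.log (20 * C)| * u :=
            mul_le_mul_of_nonneg_right (le_abs_self _) hu0.le
        _ ≤ |Real.log (20 * C)| * 1 := mul_le_mul_of_nonneg_left hu1 (abs_nonneg _)
        _ = _ := mul_one _
    have h4 : (n : ℝ) / T ≤ X / T * u := by
      have h5 : (n : ℝ) ≤ X * u := by
        calc (n : ℝ) ≤ 2 ^ (Nd n) := h2n
          _ = 8 ^ (Nd n) * u := by
              rw [hu, ← mul_pow]
              norm_num
          _ ≤ X * u := mul_le_mul_of_nonneg_right hX1 hu0.le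
      calc (n : ℝ) / T ≤ X * u / T := div_le_div_of_nonneg_right h5 hT.le
        _ = _ := by ring
    have h6 : (Real.log (20 * C) - X / T) * u = Real.log (20 * C) * u - X / T * u := by ring
    linarith
  · apply Real.exp_le_exp.2
    have h3 : (n : ℝ) ≤ X := by
      have h4 : (2 : ℝ) ^ (Nd n) ≤ 8 ^ (Nd n) := pow_le_pow_left₀ (by norm_num) (by norm_num) _
      linarith
    have h5 : (n : ℝ) / T ≤ X / T := div_le_div_of_nonneg_right h3 hT.le
    have h6 := le_abs_self (Real.log (20 * C))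
    linarith

theorem cauchy_zero {φ ψ : ℂ → ℂ} (h : RM φ ψ) {k : ℂ → ℂ} (hk : BM k)
    (h0 : ∀ z, z ∉ Dom → k z = 0) {C : ℝ} (hC : 0 < C)
    (hkb : ∀ z ∈ Dom, ‖k z‖ ≤ C * Real.exp (-(1 / (1 - ‖φ z‖))))
    (hP : ∀ P : Polynomial ℂ, ∫ s, k s * P.eval s = 0) : ∀ z, z ∉ Dom → Po k z = 0 := by
  have hex := Po_ext hk h0 hP
  refine zero_off (Po_continuous hk) hex fun x hx0 hx1 => ?_
  obtain ⟨φ0, ψ0, h00, hz0⟩ := exists_RM
  obtain ⟨M, hM, hdeep⟩ := h00.deep hz0
  obtain ⟨c, hc, hcmp⟩ := h.cmp h00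
  obtain ⟨CG, hCG0, hCG⟩ := Po_bdd hk
  set T : ℝ := √2 * (M + 1) / c with hT
  have hT0 : 0 < T := by positivity
  set η : ℕ → ℝ := fun n => C * Real.exp (-(1 / (T * Real.exp (-(Real.pi * (am n * fq n) / 32)))))
    with hη
  have hη0 : ∀ n, 0 < η n := fun n => mul_pos hC (Real.exp_pos _)
  have hlim0 : Tendsto (fun n : ℕ => Real.exp (|Real.log (20 * C)| - n / T)) atTop (𝓝 0) := by
    apply Real.tendsto_exp_atBot.comp
    have h1 : Tendsto (fun n : ℕ => (n : ℝ) / T) atTop atTop :=
      tendsto_natCast_atTop_atTop.atTop_div_const hT0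
    have h2 : Tendsto (fun n : ℕ => |Real.log (20 * C)| + -((n : ℝ) / T)) atTop atBot :=
      tendsto_atBot_add_const_left _ _ (tendsto_neg_atTop_atBot.comp h1)
    exact h2.congr fun n => by ring
  have hpt : Tendsto (fun n : ℕ => (⟨x, fk n x + am n / 4⟩ : ℂ)) atTop (𝓝 (cut x)) := by
    rw [tendsto_iff_dist_tendsto_zero]
    refine squeeze_zero (fun n => dist_nonneg) (fun n => ?_) am_tendsto
    rw [dist_eq_norm]
    refine (Complex.norm_le_abs_re_add_abs_im _).trans ?_
    have e1 : ((⟨x, fk n x + am n / 4⟩ : ℂ) - cut x).re = 0 := by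
      show x - x = 0
      ring
    have e2 : ((⟨x, fk n x + am n / 4⟩ : ℂ) - cut x).im = fk n x + am n / 4 - ff x := rfl
    rw [e1, e2, abs_zero, zero_add, abs_le]
    have h1 := fk_le_ff n x
    have h2 := ff_le_fk n x
    have h3 := am_pos n
    constructor <;> linarith
  have hbound : ∀ᶠ n : ℕ in atTop, ‖Po k (⟨x, fk n x + am n / 4⟩ : ℂ)‖ ≤
      16 * (CG + 1) * Real.exp (|Real.log (20 * C)| - n / T) := by
    have h1 : ∀ᶠ n : ℕ in atTop, am n < 1 - x := am_tendsto.eventually (gt_mem_nhds (by linarith))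
    have h2 : ∀ᶠ n : ℕ in atTop, Real.exp (|Real.log (20 * C)| - n / T) < 1 :=
      hlim0.eventually (gt_mem_nhds one_pos)
    filter_upwards [h1, h2] with n hn1 hn2
    obtain ⟨hnum1, hnum2⟩ := numer hT0 hC n
    have h20 : 20 * η n ≤ 1 := hnum2.trans hn2.le
    have hr := rd_pos n
    have hrl := rd_le n
    have hal := am_le n
    have ha := am_pos n
    have hNd := Nd_pos n
    have hfq := fq_inv_le n
    have hS := SS_nonneg n
    have hmain := chain (G := Po k) (B := CG + 1) (η := η n) (by linarith) (hη0 n) h20 hr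
      (c := ctr n x (rd n)) (N := Nd n) ?_ (fun j _ => ctr_dist n hx0 hx1 j) ?_ (Nd n) le_rfl
      (ctr n x (rd n) (Nd n)) (mem_closedBall_self (by positivity))
    · have e1 : ctr n x (rd n) (Nd n) = ⟨x, fk n x + am n / 4⟩ := by
        have : -rd n + (Nd n : ℝ) * ((x + rd n) / Nd n) = x := by
          field_simp
          ring
        unfold ctr
        rw [this]
      rw [e1] at hmain
      have h3 : 16 * (CG + 1) * (20 * η n) ^ ((1 / 4 : ℝ) ^ (Nd n)) ≤
          16 * (CG + 1) * Real.exp (|Real.log (20 * C)| - n / T) :=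
        mul_le_mul_of_nonneg_left hnum1 (by positivity)
      have := hη0 n
      linarith
    · intro z hz
      refine hex 0 z ?_
      show z.re < 0
      rw [mem_closedBall, dist_eq_norm] at hz
      have h4 := (Complex.abs_re_le_norm (z - ctr n x (rd n) 0)).trans hz
      have h5 : (z - ctr n x (rd n) 0).re = z.re + rd n := by
        show z.re - (-rd n + ((0 : ℕ) : ℝ) * _) = _
        simp
      rw [h5] at h4
      have := (abs_le.1 h4).2
      linarith
    · intro j hj
      have hsm : ∀ s ∈ ball (ctr n x (rd n) j) (rd n), ‖k s‖ ≤ η n := by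
        intro s hs
        by_cases hsD : s ∈ Dom
        swap
        · rw [h0 s hsD, norm_zero]
          exact (hη0 n).le
        rw [mem_ball, dist_eq_norm] at hs
        set Δ : ℝ := (x + rd n) / Nd n with hΔ
        have hΔ0 : 0 < Δ := by positivity
        set xj : ℝ := -rd n + j * Δ with hxj
        have hxjle : xj ≤ x := by
          have h6 : (j : ℝ) ≤ Nd n := by exact_mod_cast hj.le
          have h7 : (j : ℝ) * Δ ≤ Nd n * Δ := mul_le_mul_of_nonneg_right h6 hΔ0.le
          have h8 : (Nd n : ℝ) * Δ = x + rd n := by rw [hΔ]; field_simp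
          rw [hxj]
          linarith
        have hre : |s.re - xj| ≤ rd n :=
          (Complex.abs_re_le_norm (s - ctr n x (rd n) j)).trans hs.le
        have him : |s.im - (fk n xj + am n / 4)| ≤ rd n :=
          (Complex.abs_im_le_norm (s - ctr n x (rd n) j)).trans hs.le
        have hband : |s.im - fk n s.re - am n / 4| ≤ am n / 8 := by
          have h6 : s.im - fk n s.re - am n / 4 =
              (s.im - (fk n xj + am n / 4)) + (fk n xj - fk n s.re) := by ring
          rw [h6]
          refine (abs_add_le _ _).trans ?_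
          have h7 := fk_lip n xj s.re
          rw [abs_sub_comm xj] at h7
          have h8 : SS n * |s.re - xj| ≤ SS n * rd n := mul_le_mul_of_nonneg_left hre hS
          have h9 := rd_mul n
          linarith
        have hre2 : s.re < 1 - 1 / fq n := by
          have := (abs_le.1 hre).2
          linarith
        have h10 := hdeep n s hsD hre2 hband
        have hφ0 : 0 < ‖φ0 s‖ := by
          rw [norm_pos_iff]
          intro h11
          have h12 : s = zc := h00.injφ hsD zc_mem (by rw [h11, hz0])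
          have h13 : s.re = 3 / 2 := by rw [h12]; rfl
          have h14 : 0 < 1 / (fq n : ℝ) := by
            have := fq_pos n
            positivity
          linarith
        have h11 : 1 - ‖φ0 s‖ ≤ -Real.log ‖φ0 s‖ := by
          have := Real.log_le_sub_one_of_pos hφ0
          linarith
        have h12 : 0 < 1 - ‖φ s‖ := by
          have := h.lt hsD
          linarith
        have h15 := hcmp s hsD
        have h14 : 1 - ‖φ s‖ ≤ T * Real.exp (-(Real.pi * (am n * fq n) / 32)) := by
          set E : ℝ := Real.exp (-(Real.pi * (am n * fq n) / 32)) with hE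
          have hE0 : 0 < E := Real.exp_pos _
          have h16 : T * E = (√2 * (M + 1) * E) / c := by rw [hT]; ring
          rw [h16, le_div_iff₀ hc]
          have h17 : √2 * M * E ≤ √2 * (M + 1) * E :=
            mul_le_mul_of_nonneg_right (mul_le_mul_of_nonneg_left (by linarith) (by positivity))
              hE0.le
          linarith
        refine (hkb s hsD).trans (mul_le_mul_of_nonneg_left (Real.exp_le_exp.2 ?_) hC.le)
        rw [neg_le_neg_iff]
        exact one_div_le_one_div_of_le h12 h14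
      obtain ⟨F, hF1, hF2, hF3⟩ := split_disc hk hr (by linarith) (hη0 n).le hsm hCG
      exact ⟨F, hF1, fun z hz => (hF2 z hz).trans (by linarith), hF3⟩
  have hA : Tendsto (fun n : ℕ => ‖Po k (⟨x, fk n x + am n / 4⟩ : ℂ)‖) atTop
      (𝓝 ‖Po k (cut x)‖) :=
    ((Po_continuous hk).norm.tendsto _).comp hpt
  have hB : Tendsto (fun n : ℕ => 16 * (CG + 1) * Real.exp (|Real.log (20 * C)| - n / T)) atTop
      (𝓝 (16 * (CG + 1) * 0)) := hlim0.const_mul _
  rw [mul_zero] at hB
  have hfin := le_of_tendsto_of_tendsto hA hB hbound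
  exact norm_le_zero_iff.1 hfin

end Pool.Agent.Run7.h762
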