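import Mathlib
import Pool.Agent.Run7.h762.Cau
import Pool.Agent.Helper265.BrO

/-!
# Annihilating functions annihilate all derivatives of bounded functions of the Riemann map
-/

set_option autoImplicit false
open Set Filter Metric Topology MeasureTheory

namespace Pool.Agent.Run7.h762

open Pool.Agent.R546.RX (BM Po Po_le ker_le integrableOn_ker)

variable {φ ψ : ℂ → ℂ}

theorem RM.small (h : RM φ ψ) {G : ℂ → ℂ} (hG : Continuous G) (hG0 : ∀ z, z ∉ Dom → G z = 0)
    {ε : ℝ} (hε : 0 < ε) : ∃ m : ℝ, m < 1 ∧ ∀ z ∈ Dom, m < ‖φ z‖ → ‖G z‖ < ε := by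
  set T : Set ℂ := closure Dom ∩ {z | ε ≤ ‖G z‖} with hT
  have hTc : IsCompact T :=
    Dom_bounded.isCompact_closure.inter_right (isClosed_le continuous_const hG.norm)
  have hTD : T ⊆ Dom := by
    intro z hz
    by_contra hcon
    have h1 : ε ≤ ‖G z‖ := hz.2
    rw [hG0 z hcon, norm_zero] at h1
    linarith
  rcases T.eq_empty_or_nonempty with hE | hne
  · refine ⟨0, one_pos, fun z hz _ => ?_⟩
    by_contra hcon
    rw [not_lt] at hcon
    have : z ∈ T := ⟨subset_closure hz, hcon⟩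
    rw [hE] at this
    exact this
  · obtain ⟨z0, hz0, hmax⟩ := hTc.exists_isMaxOn hne (h.dφ.continuousOn.norm.mono hTD)
    refine ⟨‖φ z0‖, h.lt (hTD hz0), fun z hz hlt => ?_⟩
    by_contra hcon
    rw [not_lt] at hcon
    have h1 : ‖φ z‖ ≤ ‖φ z0‖ := hmax (⟨subset_closure hz, hcon⟩ : z ∈ T)
    linarith

theorem RM.deriv_mul (h : RM φ ψ) {ξ : ℂ} (hξ : ξ ∈ ball (0 : ℂ) 1) :
    deriv φ (ψ ξ) * deriv ψ ξ = 1 := by
  have h1 : HasDerivAt ψ (deriv ψ ξ) ξ := (h.dψ.differentiableAt (isOpen_ball.mem_nhds hξ)).hasDerivAt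
  have h2 : HasDerivAt φ (deriv φ (ψ ξ)) (ψ ξ) :=
    (h.dφ.differentiableAt (isOpen_Dom.mem_nhds (h.mψ hξ))).hasDerivAt
  have h3 : HasDerivAt (fun w => φ (ψ w)) (deriv φ (ψ ξ) * deriv ψ ξ) ξ := h2.comp ξ h1
  have h4 : HasDerivAt (fun w => φ (ψ w)) 1 ξ := by
    refine (hasDerivAt_id ξ).congr_of_eventuallyEq ?_
    filter_upwards [isOpen_ball.mem_nhds hξ] with w hw
    exact h.φψ w hw
  exact h3.unique h4

theorem ann_zero (h : RM φ ψ) {k : ℂ → ℂ} (hk : BM k) (h0 : ∀ z, z ∉ Dom → k z = 0)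
    (hG0 : ∀ z, z ∉ Dom → Po k z = 0) {q : ℂ → ℂ} (hq : DifferentiableOn ℂ q (ball 0 1)) {B : ℝ}
    (hB : ∀ ξ ∈ ball (0 : ℂ) 1, ‖q ξ‖ ≤ B)
    (hint : IntegrableOn (fun z => q (φ z) * deriv φ z * k z) Dom) :
    ∫ z in Dom, q (φ z) * deriv φ z * k z = 0 := by
  obtain ⟨M, hM0, hM⟩ := hk.bdd
  have hB0 : 0 ≤ B := (norm_nonneg _).trans (hB 0 (by simp))
  set f : ℂ → ℂ := fun z => q (φ z) * deriv φ z with hf
  have hfd : DifferentiableOn ℂ f Dom :=
    (hq.comp h.dφ h.mφ).mul (h.dφ.deriv isOpen_Dom)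
  set t : ℕ → ℝ := fun n => 1 / ((n : ℝ) + 1) with ht
  have ht0 : ∀ n, 0 < t n := fun n => by rw [ht]; positivity
  have htl : Tendsto t atTop (𝓝 0) := tendsto_one_div_add_atTop_nhds_zero_nat
  have hta : Antitone t := by
    intro m n hmn
    rw [ht]
    have : (m : ℝ) ≤ n := by exact_mod_cast hmn
    exact one_div_le_one_div_of_le (by positivity) (by linarith)
  set A : ℕ → Set ℂ := fun n => ψ '' ball 0 (Real.exp (-t n)) with hA
  have he1 : ∀ n, Real.exp (-t n) < 1 := fun n => by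
    rw [Real.exp_lt_one_iff]
    linarith [ht0 n]
  have hAo : ∀ n, IsOpen (A n) := fun n =>
    Pool.Agent.Helper265.Br.isOpen_image isOpen_ball h.dψ h.injψ isOpen_ball
      (ball_subset_ball (he1 n).le)
  have hAm : ∀ n, MeasurableSet (A n) := fun n => (hAo n).measurableSet
  have hAD : ∀ n, A n ⊆ Dom := by
    rintro n _ ⟨ξ, hξ, rfl⟩
    exact h.mψ (ball_subset_ball (he1 n).le hξ)
  have hmono : Monotone A := by
    intro m n hmn
    exact image_mono (ball_subset_ball (Real.exp_le_exp.2 (by linarith [hta hmn])))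
  have hU : (⋃ n, A n) = Dom := by
    apply Subset.antisymm (iUnion_subset hAD)
    intro z hz
    have h1 := h.lt hz
    have h2 : Tendsto (fun n => Real.exp (-t n)) atTop (𝓝 1) := by
      have h3 := (Real.continuous_exp.tendsto (-0)).comp htl.neg
      rw [neg_zero, Real.exp_zero] at h3
      exact h3
    obtain ⟨n, hn⟩ := (h2.eventually (lt_mem_nhds h1)).exists
    exact mem_iUnion.2 ⟨n, φ z, by simpa using hn, h.ψφ z hz⟩
  have hDfin : volume Dom ≠ ⊤ := Dom_bounded.measure_lt_top.ne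
  have hlim1 : Tendsto (fun n => ∫ ζ in A n, f ζ * k ζ) atTop (𝓝 (∫ ζ in Dom, f ζ * k ζ)) := by
    have h1 := tendsto_setIntegral_of_monotone (μ := volume) (f := fun z => f z * k z) hAm hmono
      (by rw [hU]; exact hint)
    rwa [hU] at h1
  have hlim2 : Tendsto (fun n => volume.real (Dom \ A n)) atTop (𝓝 0) := by
    have h1 := tendsto_setIntegral_of_monotone (μ := volume) (f := fun _ : ℂ => (1 : ℝ)) hAm hmono
      (by rw [hU]; exact integrableOn_const hDfin)
    rw [hU] at h1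
    simp only [setIntegral_const, smul_eq_mul, mul_one] at h1
    have h2 : ∀ n, volume.real (Dom \ A n) = volume.real Dom - volume.real (A n) := fun n =>
      measureReal_sdiff (hAD n) (hAm n) hDfin
    simp only [h2]
    have h3 := (tendsto_const_nhds (x := volume.real Dom)).sub h1
    rwa [sub_self] at h3
  -- the Cauchy integrals over `A n`
  have hcau : ∀ (n : ℕ) (z : ℂ), (∫ ζ in A n, k ζ / (ζ - z)) =
      -(Po k z - Po ((Dom \ A n).indicator k) z) := by
    intro n z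
    have h1 : (∫ ζ in A n, k ζ / (ζ - z)) = -∫ ζ in A n, k ζ * (z - ζ)⁻¹ := by
      rw [← integral_neg]
      congr 1
      funext ζ
      rw [div_eq_mul_inv, ← mul_neg, ← inv_neg, neg_sub]
    have h2 : Po ((Dom \ A n).indicator k) z = ∫ ζ in (A n)ᶜ, k ζ * (z - ζ)⁻¹ := by
      unfold Po
      rw [← integral_indicator (hAm n).compl]
      congr 1
      funext s
      by_cases hs : s ∈ A n
      · rw [indicator_of_notMem (fun h => h.2 hs), zero_mul, indicator_of_notMem (by simpa using hs)]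
      · rw [indicator_of_mem (show s ∈ (A n)ᶜ from hs)]
        by_cases hsD : s ∈ Dom
        · rw [indicator_of_mem (show s ∈ Dom \ A n from ⟨hsD, hs⟩)]
        · rw [indicator_of_notMem (fun h => hsD h.1), h0 s hsD]
    rw [h1, h2]
    unfold Po
    rw [← integral_add_compl (hAm n) (hk.integrable z)]
    ring
  have hrest : ∀ (n : ℕ) (z : ℂ) (ρ : ℝ), 0 < ρ → ‖Po ((Dom \ A n).indicator k) z‖ ≤
      M * (2 * Real.pi * ρ + volume.real (Dom \ A n) * ρ⁻¹) := by
    intro n z ρ hρ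
    have hSm : MeasurableSet (Dom \ A n) := isOpen_Dom.measurableSet.diff (hAm n)
    have hSf : volume (Dom \ A n) ≠ ⊤ :=
      ((measure_mono sdiff_subset).trans_lt (lt_top_iff_ne_top.2 hDfin)).ne
    exact (Po_le hSm hSf (M := M) (fun s _ => (norm_indicator_le_norm_self _ _).trans (hM s))
      (fun s hs => indicator_of_notMem hs _) z).trans
      (mul_le_mul_of_nonneg_left (ker_le hSf hρ z) hM0)
  -- the estimate
  have key : ∀ ε : ℝ, 0 < ε → ∀ᶠ n in atTop, ‖∫ ζ in A n, f ζ * k ζ‖ ≤ B * (3 * ε) := by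
    intro ε hε
    obtain ⟨m, hm1, hm⟩ := h.small (Po_continuous hk) hG0 hε
    have hπ := Real.pi_pos
    obtain ⟨ρ, hρ0, hρ⟩ : ∃ ρ : ℝ, 0 < ρ ∧ M * (2 * Real.pi * ρ) ≤ ε := by
      refine ⟨ε / (2 * Real.pi * (M + 1)), by positivity, ?_⟩
      have h1 : M * (2 * Real.pi * (ε / (2 * Real.pi * (M + 1)))) = ε * (M / (M + 1)) := by
        field_simp
      rw [h1]
      have h2 : M / (M + 1) ≤ 1 := by
        rw [div_le_one (by linarith)]
        linarith
      nlinarith
    have h2 : Tendsto (fun n => Real.exp (-(t n / 4))) atTop (𝓝 1) := by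
      have h3 := (Real.continuous_exp.tendsto (-(0 / 4))).comp ((htl.div_const 4).neg)
      rw [zero_div, neg_zero, Real.exp_zero] at h3
      exact h3
    have h3 : Tendsto (fun n => M * (volume.real (Dom \ A n) * ρ⁻¹)) atTop
        (𝓝 (M * (0 * ρ⁻¹))) := (hlim2.mul_const _).const_mul _
    rw [zero_mul, mul_zero] at h3
    filter_upwards [h2.eventually (lt_mem_nhds hm1), h3.eventually (gt_mem_nhds hε)] with n hn1 hn2
    have h4 := Pool.Agent.Helper265.Br.contour_bound (ψ := ψ) (f := f) (g := k) h.dψ h.injψ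
      (t := t n) (ht0 n) (by rw [h.im]; exact hfd) (BM_integrable hk).integrableOn (K := B)
      (δ := 3 * ε) ?_ ?_
    · exact h4
    · intro ξ hξ
      have hξ1 : ξ ∈ ball (0 : ℂ) 1 := by
        rw [mem_ball_zero_iff, hξ, Real.exp_lt_one_iff]
        linarith [ht0 n]
      have h5 : f (ψ ξ) * deriv ψ ξ = q ξ := by
        show q (φ (ψ ξ)) * deriv φ (ψ ξ) * deriv ψ ξ = q ξ
        rw [mul_assoc, h.deriv_mul hξ1, mul_one, h.φψ ξ hξ1]
      rw [h5]
      exact hB ξ hξ1
    · intro ξ hξ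
      have hξ1 : ξ ∈ ball (0 : ℂ) 1 := by
        rw [mem_ball_zero_iff, hξ, Real.exp_lt_one_iff]
        linarith [ht0 n]
      have h5 : ‖Po k (ψ ξ)‖ < ε := by
        refine hm _ (h.mψ hξ1) ?_
        rw [h.φψ ξ hξ1, hξ]
        exact hn1
      have h6 := hrest n (ψ ξ) ρ hρ0
      have h7 := hcau n (ψ ξ)
      show ‖∫ ζ in A n, k ζ / (ζ - ψ ξ)‖ ≤ 3 * ε
      rw [h7, norm_neg]
      refine (norm_sub_le _ _).trans ?_
      have h8 : M * (2 * Real.pi * ρ + volume.real (Dom \ A n) * ρ⁻¹) =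
        M * (2 * Real.pi * ρ) + M * (volume.real (Dom \ A n) * ρ⁻¹) := by ring
      linarith
  have hfin : ‖∫ ζ in Dom, f ζ * k ζ‖ ≤ 0 := by
    refine le_of_forall_pos_le_add fun ε hε => ?_
    rw [zero_add]
    have h1 := key (ε / (3 * (B + 1))) (by positivity)
    have h2 := le_of_tendsto hlim1.norm h1
    refine h2.trans ?_
    have h3 : B * (3 * (ε / (3 * (B + 1)))) = ε * (B / (B + 1)) := by
      field_simp
    rw [h3]
    have h4 : B / (B + 1) ≤ 1 := by
      rw [div_le_one (by linarith)]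
      linarith
    nlinarith
  exact norm_le_zero_iff.1 hfin

end Pool.Agent.Run7.h762
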