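import Mathlib
import Pool.Agent.Run7.h762.Ann
import Pool.Agent.Helper265.CrO
import Pool.Agent.Helper265.HgJ

/-!
# Approximation in the weighted `L¹` norm
-/

set_option autoImplicit false
open Set Filter Metric Topology MeasureTheory
open scoped ENNReal

namespace Pool.Agent.Run7.h762

open Pool.Agent.R546.RX (BM Po)

variable {φ ψ : ℂ → ℂ}

/-- the auxiliary weight -/
noncomputable def w1 (φ : ℂ → ℂ) (z : ℂ) : ℝ := Real.exp (-(1 / (1 - ‖φ z‖)))

theorem w1_pos (z : ℂ) : 0 < w1 φ z := Real.exp_pos _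

theorem RM.w1_le (h : RM φ ψ) {z : ℂ} (hz : z ∈ Dom) : w1 φ z ≤ 1 := by
  unfold w1
  rw [Real.exp_le_one_iff]
  have := h.lt hz
  have : 0 < 1 - ‖φ z‖ := by linarith
  have : 0 < 1 / (1 - ‖φ z‖) := by positivity
  linarith

theorem RM.w1_cont (h : RM φ ψ) : ContinuousOn (w1 φ) Dom := by
  unfold w1
  refine Real.continuous_exp.comp_continuousOn (ContinuousOn.neg (ContinuousOn.div
    continuousOn_const (continuousOn_const.sub h.dφ.continuousOn.norm) fun z hz => ?_))
  have := h.lt hz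
  linarith

theorem RM.w1_meas (h : RM φ ψ) :
    AEMeasurable (fun z => ENNReal.ofReal (w1 φ z)) (volume.restrict Dom) :=
  (h.w1_cont.aemeasurable isOpen_Dom.measurableSet).ennreal_ofReal

theorem Dom_vol : volume Dom ≠ ⊤ := Dom_bounded.measure_lt_top.ne

theorem RM.energy (h : RM φ ψ) : ∫⁻ z in Dom, ENNReal.ofReal (‖deriv φ z‖ ^ 2) ≠ ∞ := by
  have h1 := Pool.Agent.Helper265.Hg.cov (O := ball (0 : ℂ) 1) (B := Dom) (ψ := φ) (d := deriv φ)
    isOpen_Dom.measurableSet
    (fun w hw => (h.dφ.differentiableAt (isOpen_Dom.mem_nhds hw)).hasDerivAt) h.injφ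
    h.bij.image_eq (fun _ => 1)
  simp only [mul_one, lintegral_const, one_mul, Measure.restrict_apply_univ] at h1
  rw [← h1]
  exact measure_ball_lt_top.ne

theorem RM.der_int (h : RM φ ψ) : IntegrableOn (deriv φ) Dom := by
  have hc : ContinuousOn (deriv φ) Dom := (h.dφ.deriv isOpen_Dom).continuousOn
  refine ⟨hc.aestronglyMeasurable isOpen_Dom.measurableSet, ?_⟩
  show ∫⁻ z in Dom, ‖deriv φ z‖ₑ < ∞
  calc ∫⁻ z in Dom, ‖deriv φ z‖ₑ ≤ ∫⁻ z in Dom, (1 + ENNReal.ofReal (‖deriv φ z‖ ^ 2)) := by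
        refine lintegral_mono fun z => ?_
        rw [← ofReal_norm, ← ENNReal.ofReal_one, ← ENNReal.ofReal_add zero_le_one
          (by positivity)]
        apply ENNReal.ofReal_le_ofReal
        nlinarith [sq_nonneg (‖deriv φ z‖ - 1)]
    _ = (∫⁻ z in Dom, (1 : ℝ≥0∞)) + ∫⁻ z in Dom, ENNReal.ofReal (‖deriv φ z‖ ^ 2) :=
        lintegral_add_left measurable_const _
    _ < ∞ := by
        refine ENNReal.add_lt_top.2 ⟨?_, lt_top_iff_ne_top.2 h.energy⟩
        rw [lintegral_const, one_mul, Measure.restrict_apply_univ]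
        exact lt_top_iff_ne_top.2 Dom_vol

theorem RM.qd_int (h : RM φ ψ) {q : ℂ → ℂ} (hq : DifferentiableOn ℂ q (ball 0 1)) {B : ℝ}
    (hB : ∀ ξ ∈ ball (0 : ℂ) 1, ‖q ξ‖ ≤ B) : IntegrableOn (fun z => q (φ z) * deriv φ z) Dom := by
  have hfd : DifferentiableOn ℂ (fun z => q (φ z) * deriv φ z) Dom :=
    (hq.comp h.dφ h.mφ).mul (h.dφ.deriv isOpen_Dom)
  refine Integrable.mono' (h.der_int.norm.const_mul B)
    (hfd.continuousOn.aestronglyMeasurable isOpen_Dom.measurableSet) ?_
  refine (ae_restrict_iff' isOpen_Dom.measurableSet).2 (Eventually.of_forall fun z hz => ?_)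
  rw [norm_mul]
  exact mul_le_mul_of_nonneg_right (hB _ (h.mφ hz)) (norm_nonneg _)

theorem approx_L1 (h : RM φ ψ) {q : ℂ → ℂ} (hq : DifferentiableOn ℂ q (ball 0 1)) {B : ℝ}
    (hB : ∀ ξ ∈ ball (0 : ℂ) 1, ‖q ξ‖ ≤ B) {ε : ℝ≥0∞} (hε : 0 < ε) :
    ∃ P : Polynomial ℂ, ∫⁻ z in Dom, ‖q (φ z) * deriv φ z - P.eval z‖ₑ *
      ENNReal.ofReal (w1 φ z) < ε := by
  by_contra hcon
  push Not at hcon
  have hDm : MeasurableSet Dom := isOpen_Dom.measurableSet
  set f : ℂ → ℂ := fun z => q (φ z) * deriv φ z with hf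
  have hfi : IntegrableOn f Dom := h.qd_int hq hB
  set w : ℂ → ℝ≥0∞ := fun z => ENNReal.ofReal (w1 φ z) with hw
  have hwm : AEMeasurable w (volume.restrict Dom) := h.w1_meas
  have hw1 : ∀ z ∈ Dom, w z ≤ 1 := fun z hz => by
    rw [hw]
    simp only
    rw [← ENNReal.ofReal_one]
    exact ENNReal.ofReal_le_ofReal (h.w1_le hz)
  set μ : Measure ℂ := (volume.restrict Dom).withDensity w with hμ
  have hfinw : ∫⁻ z in Dom, w z ≠ ∞ := by
    have h1 : ∫⁻ z in Dom, w z ≤ ∫⁻ z in Dom, 1 := setLIntegral_mono' hDm hw1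
    refine ne_top_of_le_ne_top ?_ h1
    rw [lintegral_const, one_mul, Measure.restrict_apply_univ]
    exact Dom_vol
  have : IsFiniteMeasure μ := isFiniteMeasure_withDensity hfinw
  have hac : μ ≪ volume.restrict Dom := withDensity_absolutelyContinuous _ _
  have hlint : ∀ g : ℂ → ℂ, AEStronglyMeasurable g (volume.restrict Dom) →
      ∫⁻ z, ‖g z‖ₑ ∂μ = ∫⁻ z in Dom, ‖g z‖ₑ * w z := by
    intro g hg
    rw [hμ, lintegral_withDensity_eq_lintegral_mul₀ hwm hg.enorm]
    refine lintegral_congr fun z => ?_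
    simp only [Pi.mul_apply]
    rw [mul_comm]
  have hPm : ∀ P : Polynomial ℂ, AEStronglyMeasurable (fun z => P.eval z) (volume.restrict Dom) :=
    fun P => P.continuous.aestronglyMeasurable
  have hfm : MemLp f 1 μ := by
    refine ⟨hfi.aestronglyMeasurable.mono_ac hac, ?_⟩
    rw [eLpNorm_one_eq_lintegral_enorm, hlint f hfi.aestronglyMeasurable]
    refine lt_of_le_of_lt ?_ hfi.2
    refine setLIntegral_mono' hDm fun z hz => ?_
    calc ‖f z‖ₑ * w z ≤ ‖f z‖ₑ * 1 := mul_le_mul_right (hw1 z hz) _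
      _ = ‖f z‖ₑ := mul_one _
  have hPL : ∀ P : Polynomial ℂ, MemLp (fun z => P.eval z) 2 μ := by
    intro P
    obtain ⟨C, hC⟩ := (isCompact_closedBall (0 : ℂ) 4).exists_bound_of_continuousOn
      P.continuous.continuousOn
    refine MemLp.of_bound (P.continuous.aestronglyMeasurable) C (hac.ae_le ?_)
    refine (ae_restrict_iff' hDm).2 (Eventually.of_forall fun z hz => ?_)
    exact hC z (ball_subset_closedBall (Dom_sub hz))
  obtain ⟨k0, hk0m, hk0f, hk0P, hk0n⟩ := Pool.Agent.Helper265.Br.annih_low (μ := μ) (p := 1) (q := ∞)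
    (by norm_num) hfm hPL hε.ne' (fun P => by
      rw [eLpNorm_one_eq_lintegral_enorm, hlint (fun z => f z - P.eval z)
        (hfi.aestronglyMeasurable.sub (hPm P))]
      exact hcon P)
  rw [eLpNorm_exponent_top] at hk0f
  set C : ℝ := (eLpNormEssSup k0 μ).toReal + 1 with hC
  have hC0 : 0 < C := by positivity
  have hk0b : ∀ᵐ z ∂μ, ‖k0 z‖ ≤ C := by
    filter_upwards [ae_le_eLpNormEssSup (f := k0) (μ := μ)] with z hz
    have h1 := ENNReal.toReal_mono hk0f hz
    rw [toReal_enorm] at h1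
    linarith
  set k1 : ℂ → ℂ := fun z => if ‖k0 z‖ ≤ C then k0 z else 0 with hk1
  have hk1m : Measurable k1 :=
    Measurable.ite (measurableSet_le hk0m.norm measurable_const) hk0m measurable_const
  have hk1b : ∀ z, ‖k1 z‖ ≤ C := by
    intro z
    rw [hk1]
    simp only
    split_ifs with h1
    · exact h1
    · rw [norm_zero]
      exact hC0.le
  have hk10 : k1 =ᵐ[μ] k0 := by
    filter_upwards [hk0b] with z hz
    rw [hk1]
    simp only
    rw [if_pos hz]
  set k : ℂ → ℂ := Dom.indicator fun z => k1 z * (w1 φ z : ℂ) with hk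
  have hkD : ∀ z ∈ Dom, k z = k1 z * (w1 φ z : ℂ) := fun z hz => indicator_of_mem hz _
  have hk0' : ∀ z, z ∉ Dom → k z = 0 := fun z hz => indicator_of_notMem hz _
  have hkb : ∀ z ∈ Dom, ‖k z‖ ≤ C * Real.exp (-(1 / (1 - ‖φ z‖))) := by
    intro z hz
    rw [hkD z hz, norm_mul, Complex.norm_real, Real.norm_of_nonneg (w1_pos z).le]
    exact mul_le_mul_of_nonneg_right (hk1b z) (Real.exp_pos _).le
  have hkBM : BM k := by
    refine ⟨?_, ⟨C, hC0.le, fun z => ?_⟩, ⟨4, by norm_num, fun z hz => ?_⟩⟩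
    · rw [hk, aestronglyMeasurable_indicator_iff hDm]
      refine hk1m.aestronglyMeasurable.mul ?_
      exact (Complex.continuous_ofReal.comp_continuousOn h.w1_cont).aestronglyMeasurable hDm
    · by_cases hz : z ∈ Dom
      · refine (hkb z hz).trans ?_
        have := h.w1_le hz
        unfold w1 at this
        calc C * Real.exp (-(1 / (1 - ‖φ z‖))) ≤ C * 1 := mul_le_mul_of_nonneg_left this hC0.le
          _ = C := mul_one _
      · rw [hk0' z hz, norm_zero]
        exact hC0.le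
    · apply hk0'
      intro hzD
      have := Dom_sub hzD
      rw [mem_ball_zero_iff] at this
      linarith
  have hint : ∀ g : ℂ → ℂ, ∫ z, k0 z * g z ∂μ = ∫ z, k z * g z := by
    intro g
    have h1 : ∫ z, k0 z * g z ∂μ = ∫ z, k1 z * g z ∂μ := by
      refine integral_congr_ae ?_
      filter_upwards [hk10] with z hz
      rw [hz]
    have h2 : ∫ z, k z * g z = ∫ z in Dom, k z * g z := by
      rw [setIntegral_eq_integral_of_forall_compl_eq_zero]
      intro z hz
      rw [hk0' z hz, zero_mul]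
    rw [h1, h2, hμ, integral_withDensity_eq_integral_toReal_smul₀ hwm
      (Eventually.of_forall fun z => ENNReal.ofReal_lt_top)]
    refine setIntegral_congr_fun hDm fun z hz => ?_
    show (ENNReal.ofReal (w1 φ z)).toReal • (k1 z * g z) = k z * g z
    rw [hkD z hz, ENNReal.toReal_ofReal (w1_pos z).le, Complex.real_smul]
    ring
  have hkP : ∀ P : Polynomial ℂ, ∫ s, k s * P.eval s = 0 := fun P => by
    rw [← hint]
    exact hk0P P
  have hG0 := cauchy_zero h hkBM hk0' hC0 hkb hkP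
  have hfk : IntegrableOn (fun z => q (φ z) * deriv φ z * k z) Dom := by
    obtain ⟨M, hM0, hM⟩ := hkBM.bdd
    refine Integrable.mul_bdd hfi ?_ (c := M) (Eventually.of_forall hM)
    exact hkBM.meas.restrict
  have h3 := ann_zero h hkBM hk0' hG0 hq hB hfk
  apply hk0n
  rw [hint f, ← h3, ← setIntegral_eq_integral_of_forall_compl_eq_zero (s := Dom)]
  · congr 1
    funext z
    rw [mul_comm]
  · intro z hz
    rw [hk0' z hz, zero_mul]

end Pool.Agent.Run7.h762
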