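import Mathlib
import Pool.Agent.Run7.h762.Dual
import Pool.Agent.Helper265.BrB
import Pool.Agent.Helper265.HgMV

/-!
# From the weighted `L¹` norm to the weighted `L^p` norms
-/

set_option autoImplicit false
open Set Filter Metric Topology MeasureTheory
open scoped ENNReal

namespace Pool.Agent.Run7.h762

variable {φ ψ : ℂ → ℂ}

/-- profiles which decay faster than `exp (-A / t)` for every `A` -/
structure Prof (W : ℝ → ℝ) : Prop where
  pos : ∀ t ∈ Ioc (0 : ℝ) 1, 0 < W t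
  mono : MonotoneOn W (Ioc 0 1)
  rapid : ∀ A : ℝ, ∃ K : ℝ, 0 ≤ K ∧ ∀ t ∈ Ioc (0 : ℝ) 1, W t ≤ K * Real.exp (-(A / t))

theorem pow_le_fact_exp (n : ℕ) {y : ℝ} (hy : 0 ≤ y) : y ^ n ≤ (n.factorial : ℝ) * Real.exp y := by
  have h1 := Real.pow_div_factorial_le_exp y hy n
  rwa [div_le_iff₀ (by positivity), mul_comm] at h1

theorem one_sub_exp {t : ℝ} (h0 : 0 < t) (h1 : t ≤ 1) : t / 4 ≤ 1 - Real.exp (-(t / 2)) := by
  have h2 : Real.exp (-(t / 2)) * Real.exp (t / 2) = 1 := by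
    rw [← Real.exp_add, neg_add_cancel, Real.exp_zero]
  have h3 := Real.add_one_le_exp (t / 2)
  have h4 := Real.exp_pos (-(t / 2))
  -- `e^{-u} ≤ 1/(1+u)`
  have h5 : Real.exp (-(t / 2)) * (t / 2 + 1) ≤ Real.exp (-(t / 2)) * Real.exp (t / 2) :=
    mul_le_mul_of_nonneg_left h3 h4.le
  nlinarith

/-- the pointwise bound -/
theorem RM.pointwise (h : RM φ ψ) : ∃ (c : ℝ) (N : ℕ), 0 < c ∧ ∀ F : ℂ → ℂ,
    DifferentiableOn ℂ F Dom → ∀ z ∈ Dom,
    ENNReal.ofReal (Real.pi * (c * (1 - ‖φ z‖) ^ N) ^ 2) * ‖F z‖ₑ ≤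
      ENNReal.ofReal (Real.exp (4 / (1 - ‖φ z‖))) *
        ∫⁻ z in Dom, ‖F z‖ₑ * ENNReal.ofReal (w1 φ z) := by
  obtain ⟨c, N, hc, hsep⟩ := Pool.Agent.Helper265.Br.sep h.dψ h.injψ
  refine ⟨c, N, hc, fun F hF z hz => ?_⟩
  set τ : ℝ := 1 - ‖φ z‖ with hτ
  have hτ0 : 0 < τ := by
    have := h.lt hz
    linarith
  have hτ1 : τ ≤ 1 := by
    have := norm_nonneg (φ z)
    linarith
  have hle : ‖φ z‖ ≤ Real.exp (-τ) := by
    have := Real.add_one_le_exp (-τ)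
    linarith
  have hd : 0 < c * τ ^ N := by positivity
  have hsub : ball z (c * τ ^ N) ⊆ ψ '' ball 0 (Real.exp (-(τ / 2))) := by
    intro a ha
    by_contra hcon
    have h1 := hsep τ ⟨hτ0, hτ1⟩ (φ z) hle a hcon
    rw [h.ψφ z hz, ← dist_eq_norm, dist_comm] at h1
    rw [mem_ball] at ha
    linarith
  have he1 : Real.exp (-(τ / 2)) < 1 := by
    rw [Real.exp_lt_one_iff]
    linarith
  have hsubD : ball z (c * τ ^ N) ⊆ Dom := by
    intro a ha
    obtain ⟨ξ, hξ, rfl⟩ := hsub ha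
    exact h.mψ (ball_subset_ball he1.le hξ)
  have hw : ∀ a ∈ ball z (c * τ ^ N), 1 ≤ ENNReal.ofReal (Real.exp (4 / τ)) *
      ENNReal.ofReal (w1 φ a) := by
    intro a ha
    obtain ⟨ξ, hξ, rfl⟩ := hsub ha
    rw [← ENNReal.ofReal_mul (Real.exp_pos _).le, ← ENNReal.ofReal_one]
    apply ENNReal.ofReal_le_ofReal
    unfold w1
    rw [h.φψ ξ (ball_subset_ball he1.le hξ), ← Real.exp_add]
    apply Real.one_le_exp
    have h2 : τ / 4 ≤ 1 - ‖ξ‖ := by
      have h3 := one_sub_exp hτ0 hτ1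
      rw [mem_ball_zero_iff] at hξ
      linarith
    have h3 : 1 / (1 - ‖ξ‖) ≤ 1 / (τ / 4) := one_div_le_one_div_of_le (by positivity) h2
    have h4 : 1 / (τ / 4) = 4 / τ := by field_simp
    rw [h4] at h3
    linarith
  calc ENNReal.ofReal (Real.pi * (c * τ ^ N) ^ 2) * ‖F z‖ₑ
      ≤ ∫⁻ a in ball z (c * τ ^ N), ‖F a‖ₑ :=
        Pool.Agent.Helper265.Hg.mv_ball hd (hF.mono hsubD)
    _ ≤ ∫⁻ a in ball z (c * τ ^ N), ENNReal.ofReal (Real.exp (4 / τ)) *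
          (‖F a‖ₑ * ENNReal.ofReal (w1 φ a)) := by
        refine setLIntegral_mono' measurableSet_ball fun a ha => ?_
        calc ‖F a‖ₑ = ‖F a‖ₑ * 1 := (mul_one _).symm
          _ ≤ ‖F a‖ₑ * (ENNReal.ofReal (Real.exp (4 / τ)) * ENNReal.ofReal (w1 φ a)) :=
              mul_le_mul_right (hw a ha) _
          _ = _ := by ring
    _ = ENNReal.ofReal (Real.exp (4 / τ)) *
          ∫⁻ a in ball z (c * τ ^ N), ‖F a‖ₑ * ENNReal.ofReal (w1 φ a) :=
        lintegral_const_mul' _ _ ENNReal.ofReal_ne_top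
    _ ≤ _ := mul_le_mul_right (lintegral_mono_set hsubD) _

theorem RM.conv (h : RM φ ψ) {W : ℝ → ℝ} (hW : Prof W) {p : ℝ} (hp : 0 < p) :
    ∃ K : ℝ≥0∞, K ≠ ∞ ∧ ∀ F : ℂ → ℂ, DifferentiableOn ℂ F Dom →
    ∫⁻ z in Dom, ‖F z‖ₑ ^ p * ENNReal.ofReal (W (1 - ‖φ z‖)) ≤
      K * (∫⁻ z in Dom, ‖F z‖ₑ * ENNReal.ofReal (w1 φ z)) ^ p := by
  obtain ⟨c, N, hc, hpt⟩ := h.pointwise
  obtain ⟨K1, hK10, hK1⟩ := hW.rapid (5 * p)
  set K0 : ℝ := ((2 * N).factorial / (Real.pi * c ^ 2)) ^ p * K1 with hK0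
  have hπ := Real.pi_pos
  refine ⟨ENNReal.ofReal K0 * volume Dom, ENNReal.mul_ne_top ENNReal.ofReal_ne_top Dom_vol,
    fun F hF => ?_⟩
  set A : ℝ≥0∞ := ∫⁻ z in Dom, ‖F z‖ₑ * ENNReal.ofReal (w1 φ z) with hA
  have hb : ∀ z ∈ Dom, ‖F z‖ₑ ^ p * ENNReal.ofReal (W (1 - ‖φ z‖)) ≤ ENNReal.ofReal K0 * A ^ p := by
    intro z hz
    have h1 := hpt F hF z hz
    set τ : ℝ := 1 - ‖φ z‖ with hτ
    have hτ0 : 0 < τ := by
      have := h.lt hz
      linarith
    have hτI : τ ∈ Ioc (0 : ℝ) 1 := ⟨hτ0, by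
      have := norm_nonneg (φ z)
      linarith⟩
    have hWτ := hW.pos τ hτI
    have hd : 0 < Real.pi * (c * τ ^ N) ^ 2 := by positivity
    have h2 : ‖F z‖ₑ ≤ ENNReal.ofReal (Real.exp (4 / τ) / (Real.pi * (c * τ ^ N) ^ 2)) * A := by
      have h3 : ENNReal.ofReal (Real.pi * (c * τ ^ N) ^ 2) ≠ 0 := by
        rw [Ne, ENNReal.ofReal_eq_zero, not_le]
        exact hd
      have h4 : ‖F z‖ₑ ≤ (ENNReal.ofReal (Real.exp (4 / τ)) * A) /
          ENNReal.ofReal (Real.pi * (c * τ ^ N) ^ 2) := by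
        rw [ENNReal.le_div_iff_mul_le (Or.inl h3) (Or.inl ENNReal.ofReal_ne_top), mul_comm]
        exact h1
      refine h4.trans (le_of_eq ?_)
      rw [ENNReal.ofReal_div_of_pos hd, ENNReal.div_eq_inv_mul, ENNReal.div_eq_inv_mul, mul_assoc]
    have h5 : Real.exp (4 / τ) / (Real.pi * (c * τ ^ N) ^ 2) ≤
        (2 * N).factorial / (Real.pi * c ^ 2) * Real.exp (5 * (1 / τ)) := by
      have h6 := pow_le_fact_exp (2 * N) (y := 1 / τ) (by positivity)
      have h7 : Real.exp (4 / τ) / (Real.pi * (c * τ ^ N) ^ 2) =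
          Real.exp (4 * (1 / τ)) * (1 / τ) ^ (2 * N) / (Real.pi * c ^ 2) := by
        have : (4 : ℝ) / τ = 4 * (1 / τ) := by ring
        rw [this, one_div, inv_pow, mul_pow, ← pow_mul, mul_comm N 2]
        field_simp
      rw [h7, div_mul_eq_mul_div]
      refine div_le_div_of_nonneg_right ?_ (by positivity)
      calc Real.exp (4 * (1 / τ)) * (1 / τ) ^ (2 * N)
          ≤ Real.exp (4 * (1 / τ)) * ((2 * N).factorial * Real.exp (1 / τ)) :=
            mul_le_mul_of_nonneg_left h6 (Real.exp_pos _).le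
        _ = (2 * N).factorial * (Real.exp (4 * (1 / τ)) * Real.exp (1 / τ)) := by ring
        _ = (2 * N).factorial * Real.exp (5 * (1 / τ)) := by
            rw [← Real.exp_add]
            congr 2
            ring
    have h8 : (Real.exp (4 / τ) / (Real.pi * (c * τ ^ N) ^ 2)) ^ p * W τ ≤ K0 := by
      have h9 : (Real.exp (4 / τ) / (Real.pi * (c * τ ^ N) ^ 2)) ^ p ≤
          ((2 * N).factorial / (Real.pi * c ^ 2) * Real.exp (5 * (1 / τ))) ^ p :=
        Real.rpow_le_rpow (by positivity) h5 hp.le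
      refine (mul_le_mul_of_nonneg_right h9 hWτ.le).trans ?_
      rw [Real.mul_rpow (by positivity) (Real.exp_pos _).le, ← Real.exp_mul, hK0, mul_assoc]
      refine mul_le_mul_of_nonneg_left ?_ (by positivity)
      calc Real.exp (5 * (1 / τ) * p) * W τ
          ≤ Real.exp (5 * (1 / τ) * p) * (K1 * Real.exp (-(5 * p / τ))) :=
            mul_le_mul_of_nonneg_left (hK1 τ hτI) (Real.exp_pos _).le
        _ = K1 * (Real.exp (5 * (1 / τ) * p) * Real.exp (-(5 * p / τ))) := by ring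
        _ = K1 := by
            rw [← Real.exp_add]
            have : 5 * (1 / τ) * p + -(5 * p / τ) = 0 := by ring
            rw [this, Real.exp_zero, mul_one]
    calc ‖F z‖ₑ ^ p * ENNReal.ofReal (W τ)
        ≤ (ENNReal.ofReal (Real.exp (4 / τ) / (Real.pi * (c * τ ^ N) ^ 2)) * A) ^ p *
            ENNReal.ofReal (W τ) := by
          gcongr
      _ = ENNReal.ofReal ((Real.exp (4 / τ) / (Real.pi * (c * τ ^ N) ^ 2)) ^ p * W τ) * A ^ p := by
          rw [ENNReal.mul_rpow_of_nonneg _ _ hp.le, ENNReal.ofReal_rpow_of_pos (by positivity),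
            ENNReal.ofReal_mul (by positivity)]
          ring
      _ ≤ ENNReal.ofReal K0 * A ^ p := by
          gcongr
  calc ∫⁻ z in Dom, ‖F z‖ₑ ^ p * ENNReal.ofReal (W (1 - ‖φ z‖))
      ≤ ∫⁻ z in Dom, ENNReal.ofReal K0 * A ^ p := setLIntegral_mono' isOpen_Dom.measurableSet hb
    _ = ENNReal.ofReal K0 * volume Dom * A ^ p := by
        rw [lintegral_const, Measure.restrict_apply_univ]
        ring

end Pool.Agent.Run7.h762
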