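import Mathlib
import Pool.Agent.Run7.h762.Conv
import Pool.Agent.Helper265.BrU

/-!
# Density of the derivatives of bounded functions of the Riemann map
-/

set_option autoImplicit false
open Set Filter Metric Topology MeasureTheory
open scoped ENNReal

namespace Pool.Agent.Run7.h762

variable {φ ψ : ℂ → ℂ}

theorem combine {w : ℂ → ℝ≥0∞} {p : ℝ} (hp : 1 ≤ p)
    {f g h : ℂ → ℂ} (hf : ContinuousOn f Dom) (hg : ContinuousOn g Dom)
    (hw : AEMeasurable w (volume.restrict Dom)) :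
    ∫⁻ z in Dom, ‖f z - h z‖ₑ ^ p * w z ≤
      2 ^ p * ((∫⁻ z in Dom, ‖f z - g z‖ₑ ^ p * w z) + ∫⁻ z in Dom, ‖g z - h z‖ₑ ^ p * w z) := by
  have h1 : AEMeasurable (fun z => ‖f z - g z‖ₑ ^ p * w z) (volume.restrict Dom) :=
    (((hf.sub hg).aemeasurable isOpen_Dom.measurableSet).enorm.pow_const p).mul hw
  rw [← lintegral_add_left' h1, ← lintegral_const_mul' _ _ (by
    exact ENNReal.rpow_ne_top_of_nonneg (by linarith) (by norm_num))]
  refine lintegral_mono fun z => ?_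
  have h2 : ‖f z - h z‖ₑ ≤ ‖f z - g z‖ₑ + ‖g z - h z‖ₑ := by
    have : f z - h z = (f z - g z) + (g z - h z) := by ring
    rw [this]
    exact enorm_add_le _ _
  have h3 : (‖f z - g z‖ₑ + ‖g z - h z‖ₑ) ^ p ≤
      2 ^ p * (‖f z - g z‖ₑ ^ p + ‖g z - h z‖ₑ ^ p) := by
    refine (ENNReal.rpow_add_le_mul_rpow_add_rpow _ _ hp).trans ?_
    gcongr
    · exact one_le_two
    · linarith
  calc ‖f z - h z‖ₑ ^ p * w z ≤ (‖f z - g z‖ₑ + ‖g z - h z‖ₑ) ^ p * w z := by gcongr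
    _ ≤ (2 ^ p * (‖f z - g z‖ₑ ^ p + ‖g z - h z‖ₑ ^ p)) * w z := by gcongr
    _ = _ := by ring

theorem RM.W_meas (h : RM φ ψ) {W : ℝ → ℝ} (hW : Prof W) :
    AEMeasurable (fun z => ENNReal.ofReal (W (1 - ‖φ z‖))) (volume.restrict Dom) := by
  let W' : ℝ → ℝ := fun t => if t ≤ 0 then 0 else W (min t 1)
  have hmono : Monotone W' := by
    intro t s hts
    simp only [W']
    by_cases ht : t ≤ 0
    · rw [if_pos ht]
      by_cases hs : s ≤ 0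
      · rw [if_pos hs]
      · rw [if_neg hs]
        exact (hW.pos _ ⟨lt_min (not_le.1 hs) one_pos, min_le_right _ _⟩).le
    · have hs : ¬ s ≤ 0 := fun h => ht (hts.trans h)
      rw [if_neg ht, if_neg hs]
      exact hW.mono ⟨lt_min (not_le.1 ht) one_pos, min_le_right _ _⟩
        ⟨lt_min (not_le.1 hs) one_pos, min_le_right _ _⟩ (min_le_min_right _ hts)
  have h1 : AEMeasurable (fun z => 1 - ‖φ z‖) (volume.restrict Dom) :=
    ((continuousOn_const.sub h.dφ.continuousOn.norm).aemeasurable isOpen_Dom.measurableSet)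
  have h2 : AEMeasurable (fun z => ENNReal.ofReal (W' (1 - ‖φ z‖))) (volume.restrict Dom) :=
    (hmono.measurable.comp_aemeasurable h1).ennreal_ofReal
  refine h2.congr ((ae_restrict_iff' isOpen_Dom.measurableSet).2
    (Eventually.of_forall fun z hz => ?_))
  have hlt := h.lt hz
  simp only [W']
  rw [if_neg (by linarith), min_eq_left (by linarith [norm_nonneg (φ z)])]

/-- negative powers against the weight -/
theorem pow_Wt {W : ℝ → ℝ} {K1 p : ℝ} (hK1 : ∀ t ∈ Ioc (0 : ℝ) 1, W t ≤ K1 * Real.exp (-(p / t)))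
    {D τ : ℝ} {n : ℕ} (hD : 0 ≤ D) (hp : 0 < p) (hτ : τ ∈ Ioc (0 : ℝ) 1) (hWτ : 0 < W τ) :
    (D * (1 / τ) ^ n) ^ p * W τ ≤ (D * n.factorial) ^ p * K1 := by
  have hτ0 := hτ.1
  have h1 := pow_le_fact_exp n (y := 1 / τ) (by positivity)
  have h2 : (D * (1 / τ) ^ n) ^ p ≤ ((D * n.factorial) * Real.exp (1 / τ)) ^ p := by
    apply Real.rpow_le_rpow (by positivity) _ hp.le
    calc D * (1 / τ) ^ n ≤ D * (n.factorial * Real.exp (1 / τ)) := mul_le_mul_of_nonneg_left h1 hD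
      _ = _ := by ring
  refine (mul_le_mul_of_nonneg_right h2 hWτ.le).trans ?_
  rw [Real.mul_rpow (by positivity) (Real.exp_pos _).le, ← Real.exp_mul, mul_assoc]
  refine mul_le_mul_of_nonneg_left ?_ (by positivity)
  calc Real.exp (1 / τ * p) * W τ ≤ Real.exp (1 / τ * p) * (K1 * Real.exp (-(p / τ))) :=
        mul_le_mul_of_nonneg_left (hK1 τ hτ) (Real.exp_pos _).le
    _ = K1 * (Real.exp (1 / τ * p) * Real.exp (-(p / τ))) := by ring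
    _ = K1 := by
        rw [← Real.exp_add]
        have : 1 / τ * p + -(p / τ) = 0 := by ring
        rw [this, Real.exp_zero, mul_one]

/-- derivative bounds -/
theorem RM.dbd (h : RM φ ψ) : ∃ (C : ℝ) (N : ℕ), 1 ≤ C ∧ ∀ z ∈ Dom,
    ‖deriv φ z‖ ≤ C * (1 / (1 - ‖φ z‖)) ^ N ∧ ‖deriv ψ (φ z)‖ ≤ C * (1 / (1 - ‖φ z‖)) ^ N := by
  obtain ⟨C, N, hC, hder⟩ := Pool.Agent.Helper265.Br.der_bd h.dψ h.injψ
  refine ⟨C + 1, N, by linarith, fun z hz => ?_⟩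
  obtain ⟨h1, h2⟩ := hder (φ z) (h.mφ hz)
  have h3 := h.deriv_mul (h.mφ hz)
  rw [h.ψφ z hz] at h3
  set τ : ℝ := 1 - ‖φ z‖ with hτ
  have hτ0 : 0 < τ := by
    have := h.lt hz
    linarith
  have hτN : 0 < τ ^ N := by positivity
  have h4 : ‖deriv φ z‖ * ‖deriv ψ (φ z)‖ = 1 := by rw [← norm_mul, h3, norm_one]
  have h5 : (1 / τ) ^ N = 1 / τ ^ N := one_div_pow τ N
  rw [h5, mul_one_div, le_div_iff₀ hτN, le_div_iff₀ hτN]
  constructor
  · calc ‖deriv φ z‖ * τ ^ N ≤ ‖deriv φ z‖ * (C * ‖deriv ψ (φ z)‖) :=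
          mul_le_mul_of_nonneg_left h2 (norm_nonneg _)
      _ = C * (‖deriv φ z‖ * ‖deriv ψ (φ z)‖) := by ring
      _ ≤ C + 1 := by rw [h4]; linarith
  · linarith

theorem one_le_inv_pow {τ : ℝ} (h0 : 0 < τ) (h1 : τ ≤ 1) (n : ℕ) : 1 ≤ (1 / τ) ^ n :=
  one_le_pow₀ ((one_le_div h0).2 h1)

theorem RM.dil (h : RM φ ψ) {W : ℝ → ℝ} (hW : Prof W) {p : ℝ} (hp : 1 ≤ p) {g : ℂ → ℂ} (hg : DifferentiableOn ℂ g Dom)
    {M : ℝ} (hM0 : 0 ≤ M) (hM : ∀ z ∈ Dom, ‖g z‖ ^ p ≤ M * ‖deriv φ z‖ ^ 2)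
    {ε : ℝ≥0∞} (hε : 0 < ε) :
    ∃ (q : ℂ → ℂ) (B : ℝ), DifferentiableOn ℂ q (ball 0 1) ∧ (∀ ξ ∈ ball (0 : ℂ) 1, ‖q ξ‖ ≤ B) ∧
      ∫⁻ z in Dom, ‖g z - q (φ z) * deriv φ z‖ₑ ^ p * ENNReal.ofReal (W (1 - ‖φ z‖)) < ε := by
  obtain ⟨C, N, hC, hdb⟩ := h.dbd
  have hp0 : 0 < p := by linarith
  set G : ℂ → ℂ := fun ξ => g (ψ ξ) * deriv ψ ξ with hG
  have hGd : DifferentiableOn ℂ G (ball 0 1) :=
    (hg.comp h.dψ h.mψ).mul (h.dψ.deriv isOpen_ball)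
  have hGφ : ∀ z ∈ Dom, G (φ z) * deriv φ z = g z := by
    intro z hz
    have h3 := h.deriv_mul (h.mφ hz)
    rw [h.ψφ z hz] at h3
    show g (ψ (φ z)) * deriv ψ (φ z) * deriv φ z = g z
    rw [h.ψφ z hz, mul_assoc, mul_comm (deriv ψ (φ z)), h3, mul_one]
  -- the bound for `g`
  have hgb : ∀ z ∈ Dom, ‖g z‖ ≤ (1 + M * C ^ 2) * (1 / (1 - ‖φ z‖)) ^ (2 * N) := by
    intro z hz
    have hτ0 : 0 < 1 - ‖φ z‖ := by
      have := h.lt hz
      linarith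
    have hτ1 : 1 - ‖φ z‖ ≤ 1 := by
      have := norm_nonneg (φ z)
      linarith
    have h1 : ‖g z‖ ≤ 1 + ‖g z‖ ^ p := by
      rcases le_or_gt ‖g z‖ 1 with h2 | h2
      · have : 0 ≤ ‖g z‖ ^ p := by positivity
        linarith
      · have := Real.rpow_le_rpow_of_exponent_le h2.le hp
        rw [Real.rpow_one] at this
        linarith
    have h2 : ‖deriv φ z‖ ^ 2 ≤ C ^ 2 * (1 / (1 - ‖φ z‖)) ^ (2 * N) := by
      calc ‖deriv φ z‖ ^ 2 ≤ (C * (1 / (1 - ‖φ z‖)) ^ N) ^ 2 :=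
            pow_le_pow_left₀ (norm_nonneg _) (hdb z hz).1 2
        _ = C ^ 2 * (1 / (1 - ‖φ z‖)) ^ (2 * N) := by
            rw [mul_pow, ← pow_mul, mul_comm N 2]
    have h3 := one_le_inv_pow hτ0 hτ1 (2 * N)
    calc ‖g z‖ ≤ 1 + ‖g z‖ ^ p := h1
      _ ≤ 1 + M * ‖deriv φ z‖ ^ 2 := by linarith [hM z hz]
      _ ≤ 1 + M * (C ^ 2 * (1 / (1 - ‖φ z‖)) ^ (2 * N)) := by
          linarith [mul_le_mul_of_nonneg_left h2 hM0]
      _ ≤ _ := by nlinarith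
  set D : ℝ := (1 + M * C ^ 2) * C with hD
  have hD0 : 0 < D := by positivity
  have hD1 : 1 + M * C ^ 2 ≤ D * C := by
    have : 0 < 1 + M * C ^ 2 := by positivity
    rw [hD]
    nlinarith
  -- the bound for `G`
  have hGb : ∀ ξ ∈ ball (0 : ℂ) 1, ‖G ξ‖ ≤ D * (1 / (1 - ‖ξ‖)) ^ (3 * N) := by
    intro ξ hξ
    have h1 := hgb (ψ ξ) (h.mψ hξ)
    have h2 := (hdb (ψ ξ) (h.mψ hξ)).2
    rw [h.φψ ξ hξ] at h1 h2
    show ‖g (ψ ξ) * deriv ψ ξ‖ ≤ _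
    rw [norm_mul]
    have hξ1 : ‖ξ‖ < 1 := by simpa using hξ
    have h3 : 0 < 1 - ‖ξ‖ := by linarith
    calc ‖g (ψ ξ)‖ * ‖deriv ψ ξ‖ ≤ ((1 + M * C ^ 2) * (1 / (1 - ‖ξ‖)) ^ (2 * N)) *
          (C * (1 / (1 - ‖ξ‖)) ^ N) := mul_le_mul h1 h2 (norm_nonneg _) (by positivity)
      _ = D * ((1 / (1 - ‖ξ‖)) ^ (2 * N) * (1 / (1 - ‖ξ‖)) ^ N) := by rw [hD]; ring
      _ = D * (1 / (1 - ‖ξ‖)) ^ (3 * N) := by rw [← pow_add]; congr 2; ring
  -- the dilations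
  set s : ℕ → ℝ := fun n => 1 - 1 / ((n : ℝ) + 2) with hs
  have hs0 : ∀ n, 0 < s n := fun n => by
    rw [hs]
    have : 1 / ((n : ℝ) + 2) ≤ 1 / 2 := by
      apply one_div_le_one_div_of_le (by norm_num)
      have : (0 : ℝ) ≤ n := Nat.cast_nonneg n
      linarith
    simp only
    linarith
  have hs1 : ∀ n, s n < 1 := fun n => by
    rw [hs]
    have : 0 < 1 / ((n : ℝ) + 2) := by positivity
    simp only
    linarith
  have hsl : Tendsto s atTop (𝓝 1) := by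
    have h1 : Tendsto (fun n : ℕ => 1 / ((n : ℝ) + 2)) atTop (𝓝 0) := by
      have h2 := (tendsto_add_atTop_iff_nat 1).2 (tendsto_one_div_add_atTop_nhds_zero_nat (𝕜 := ℝ))
      refine h2.congr fun n => ?_
      push_cast
      ring
    have h3 := (tendsto_const_nhds (x := (1 : ℝ))).sub h1
    rwa [sub_zero] at h3
  set q : ℕ → ℂ → ℂ := fun n ξ => G (s n * ξ) with hq
  have hsm : ∀ n, ∀ ξ ∈ ball (0 : ℂ) 1, ‖(s n : ℂ) * ξ‖ ≤ s n * ‖ξ‖ ∧ (s n : ℂ) * ξ ∈ ball (0 : ℂ) 1 := by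
    intro n ξ hξ
    have h1 : ‖(s n : ℂ) * ξ‖ = s n * ‖ξ‖ := by
      rw [norm_mul, Complex.norm_real, Real.norm_of_nonneg (hs0 n).le]
    refine ⟨h1.le, ?_⟩
    rw [mem_ball_zero_iff, h1]
    rw [mem_ball_zero_iff] at hξ
    have := norm_nonneg ξ
    have := hs0 n
    have := hs1 n
    nlinarith
  have hqd : ∀ n, DifferentiableOn ℂ (q n) (ball 0 1) := fun n =>
    hGd.comp (by fun_prop) fun ξ hξ => (hsm n ξ hξ).2
  have hqB : ∀ n, ∃ B : ℝ, ∀ ξ ∈ ball (0 : ℂ) 1, ‖q n ξ‖ ≤ B := by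
    intro n
    refine ⟨D * (1 / (1 - s n)) ^ (3 * N), fun ξ hξ => ?_⟩
    obtain ⟨h1, h2⟩ := hsm n ξ hξ
    have h3 : ‖ξ‖ < 1 := by simpa using hξ
    have h4 : ‖(s n : ℂ) * ξ‖ ≤ s n := by
      have := hs0 n
      nlinarith
    have h5 : 0 < 1 - s n := by linarith [hs1 n]
    refine (hGb _ h2).trans (mul_le_mul_of_nonneg_left ?_ hD0.le)
    exact pow_le_pow_left₀ (by
      have : 0 < 1 - ‖(s n : ℂ) * ξ‖ := by linarith
      positivity) (one_div_le_one_div_of_le h5 (by linarith)) _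
  have hqφ : ∀ n, ∀ z ∈ Dom, ‖q n (φ z) * deriv φ z‖ ≤ D * C * (1 / (1 - ‖φ z‖)) ^ (4 * N) := by
    intro n z hz
    obtain ⟨h1, h2⟩ := hsm n (φ z) (h.mφ hz)
    have hlt := h.lt hz
    have h3 : ‖(s n : ℂ) * φ z‖ ≤ ‖φ z‖ := by
      have := hs1 n
      have := norm_nonneg (φ z)
      nlinarith
    have hτ0 : 0 < 1 - ‖φ z‖ := by linarith
    have h4 : ‖q n (φ z)‖ ≤ D * (1 / (1 - ‖φ z‖)) ^ (3 * N) := by
      refine (hGb _ h2).trans (mul_le_mul_of_nonneg_left ?_ hD0.le)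
      exact pow_le_pow_left₀ (by
        have : 0 < 1 - ‖(s n : ℂ) * φ z‖ := by linarith
        positivity) (one_div_le_one_div_of_le hτ0 (by linarith)) _
    rw [norm_mul]
    calc ‖q n (φ z)‖ * ‖deriv φ z‖ ≤ (D * (1 / (1 - ‖φ z‖)) ^ (3 * N)) *
          (C * (1 / (1 - ‖φ z‖)) ^ N) := mul_le_mul h4 (hdb z hz).1 (norm_nonneg _) (by positivity)
      _ = D * C * ((1 / (1 - ‖φ z‖)) ^ (3 * N) * (1 / (1 - ‖φ z‖)) ^ N) := by ring
      _ = D * C * (1 / (1 - ‖φ z‖)) ^ (4 * N) := by rw [← pow_add]; congr 2; ring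
  have hgb4 : ∀ z ∈ Dom, ‖g z‖ ≤ D * C * (1 / (1 - ‖φ z‖)) ^ (4 * N) := by
    intro z hz
    have hlt := h.lt hz
    have hτ0 : 0 < 1 - ‖φ z‖ := by linarith
    have hτ1 : 1 - ‖φ z‖ ≤ 1 := by
      have := norm_nonneg (φ z)
      linarith
    have h1 : (1 / (1 - ‖φ z‖)) ^ (2 * N) ≤ (1 / (1 - ‖φ z‖)) ^ (4 * N) :=
      pow_le_pow_right₀ ((one_le_div hτ0).2 hτ1) (by omega)
    refine (hgb z hz).trans ?_
    exact mul_le_mul hD1 h1 (by positivity) (by positivity)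
  -- the constant bound
  obtain ⟨K1, hK10, hK1⟩ := hW.rapid p
  set K : ℝ := ((2 * (D * C)) * (4 * N).factorial) ^ p * K1 with hK
  have hdom : ∀ n, ∀ z ∈ Dom, ‖g z - q n (φ z) * deriv φ z‖ₑ ^ p *
      ENNReal.ofReal (W (1 - ‖φ z‖)) ≤ ENNReal.ofReal K := by
    intro n z hz
    have hlt := h.lt hz
    have hτI : 1 - ‖φ z‖ ∈ Ioc (0 : ℝ) 1 := ⟨by linarith, by linarith [norm_nonneg (φ z)]⟩
    have h1 : ‖g z - q n (φ z) * deriv φ z‖ ≤ 2 * (D * C) * (1 / (1 - ‖φ z‖)) ^ (4 * N) := by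
      refine (norm_sub_le _ _).trans ?_
      linarith [hgb4 z hz, hqφ n z hz]
    have h2 : ‖g z - q n (φ z) * deriv φ z‖ₑ ^ p =
        ENNReal.ofReal (‖g z - q n (φ z) * deriv φ z‖ ^ p) := by
      rw [← ofReal_norm, ENNReal.ofReal_rpow_of_nonneg (norm_nonneg _) hp0.le]
    rw [h2, ← ENNReal.ofReal_mul (by positivity)]
    apply ENNReal.ofReal_le_ofReal
    calc ‖g z - q n (φ z) * deriv φ z‖ ^ p * W (1 - ‖φ z‖)
        ≤ (2 * (D * C) * (1 / (1 - ‖φ z‖)) ^ (4 * N)) ^ p * W (1 - ‖φ z‖) :=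
          mul_le_mul_of_nonneg_right (Real.rpow_le_rpow (norm_nonneg _) h1 hp0.le)
            (hW.pos _ hτI).le
      _ ≤ K := pow_Wt hK1 (by positivity) hp0 hτI (hW.pos _ hτI)
  have hlim : Tendsto (fun n => ∫⁻ z in Dom, ‖g z - q n (φ z) * deriv φ z‖ₑ ^ p *
      ENNReal.ofReal (W (1 - ‖φ z‖))) atTop (𝓝 (∫⁻ z in Dom, 0)) := by
    refine tendsto_lintegral_of_dominated_convergence' (fun _ => ENNReal.ofReal K) ?_ ?_ ?_ ?_
    · intro n
      refine AEMeasurable.mul ?_ (h.W_meas hW)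
      refine AEMeasurable.pow_const (AEMeasurable.enorm ?_) p
      refine ContinuousOn.aemeasurable ?_ isOpen_Dom.measurableSet
      exact hg.continuousOn.sub (((hqd n).comp h.dφ h.mφ).mul
        (h.dφ.deriv isOpen_Dom)).continuousOn
    · intro n
      exact (ae_restrict_iff' isOpen_Dom.measurableSet).2 (Eventually.of_forall (hdom n))
    · rw [lintegral_const, Measure.restrict_apply_univ]
      exact ENNReal.mul_ne_top ENNReal.ofReal_ne_top Dom_vol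
    · refine (ae_restrict_iff' isOpen_Dom.measurableSet).2 (Eventually.of_forall fun z hz => ?_)
      have h1 : Tendsto (fun n => q n (φ z)) atTop (𝓝 (G (φ z))) := by
        have h2 : Tendsto (fun n => (s n : ℂ) * φ z) atTop (𝓝 (φ z)) := by
          have h3 : Tendsto (fun n => (s n : ℂ)) atTop (𝓝 ((1 : ℝ) : ℂ)) :=
            (Complex.continuous_ofReal.tendsto 1).comp hsl
          have h4 := h3.mul_const (φ z)
          simpa using h4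
        exact ((hGd.continuousOn.continuousAt (isOpen_ball.mem_nhds (h.mφ hz))).tendsto).comp h2
      have h2 : Tendsto (fun n => g z - q n (φ z) * deriv φ z) atTop (𝓝 0) := by
        have h3 := (tendsto_const_nhds (x := g z)).sub (h1.mul_const (deriv φ z))
        rwa [hGφ z hz, sub_self] at h3
      have h3 : Tendsto (fun n => ‖g z - q n (φ z) * deriv φ z‖ₑ ^ p) atTop (𝓝 0) := by
        have h4 := ((ENNReal.continuous_rpow_const (y := p)).tendsto _).comp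
          ((continuous_enorm.tendsto _).comp h2)
        rw [enorm_zero, ENNReal.zero_rpow_of_pos hp0] at h4
        exact h4
      have h4 := ENNReal.Tendsto.mul_const (b := ENNReal.ofReal (W (1 - ‖φ z‖))) h3
        (Or.inr ENNReal.ofReal_ne_top)
      rwa [zero_mul] at h4
  rw [lintegral_zero] at hlim
  obtain ⟨n, hn⟩ := (hlim.eventually (gt_mem_nhds hε)).exists
  obtain ⟨B, hB⟩ := hqB n
  exact ⟨q n, B, hqd n, hB, hn⟩

theorem RM.dense (h : RM φ ψ) {W : ℝ → ℝ} (hW : Prof W) {p : ℝ} (hp : 1 ≤ p) {f : ℂ → ℂ} (hf : DifferentiableOn ℂ f Dom)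
    (hfin : ∫⁻ z in Dom, ‖f z‖ₑ ^ p * ENNReal.ofReal (W (1 - ‖φ z‖)) ≠ ∞) {ε : ℝ≥0∞}
    (hε : 0 < ε) :
    ∃ (q : ℂ → ℂ) (B : ℝ), DifferentiableOn ℂ q (ball 0 1) ∧ (∀ ξ ∈ ball (0 : ℂ) 1, ‖q ξ‖ ≤ B) ∧
      ∫⁻ z in Dom, ‖f z - q (φ z) * deriv φ z‖ₑ ^ p * ENNReal.ofReal (W (1 - ‖φ z‖)) < ε := by
  have hp0 : 0 < p := by linarith
  have h2p0 : (2 : ℝ≥0∞) ^ p ≠ 0 := by simp [ENNReal.rpow_eq_zero_iff]
  have h2pt : (2 : ℝ≥0∞) ^ p ≠ ∞ := ENNReal.rpow_ne_top_of_nonneg hp0.le (by norm_num)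
  -- reduce to finite `ε`
  set δ : ℝ≥0∞ := min ε 1 / (2 ^ p * 2) with hδ
  have hden0 : (2 : ℝ≥0∞) ^ p * 2 ≠ 0 := mul_ne_zero h2p0 (by norm_num)
  have hdent : (2 : ℝ≥0∞) ^ p * 2 ≠ ∞ := ENNReal.mul_ne_top h2pt (by norm_num)
  have hδ0 : 0 < δ := ENNReal.div_pos (lt_min hε one_pos).ne' hdent
  have hsum : 2 ^ p * (δ + δ) = min ε 1 := by
    rw [← two_mul, ← mul_assoc, hδ]
    exact ENNReal.mul_div_cancel hden0 hdent
  obtain ⟨g, hg, ⟨M, hMt, hM⟩, hfg⟩ := Pool.Agent.Helper265.Br.transfer2 isOpen_Dom Dom_simply h.dφ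
    h.bij h.ne (W := W) hW.pos hW.mono hp hf hfin hδ0
  have hM' : ∀ z ∈ Dom, ‖g z‖ ^ p ≤ M.toReal * ‖deriv φ z‖ ^ 2 := by
    intro z hz
    have h1 := hM z hz
    rw [← ofReal_norm, ENNReal.ofReal_rpow_of_nonneg (norm_nonneg _) hp0.le,
      ← ENNReal.ofReal_toReal hMt, ← ENNReal.ofReal_mul ENNReal.toReal_nonneg,
      ENNReal.ofReal_le_ofReal_iff (by positivity)] at h1
    exact h1
  obtain ⟨q, B, hqd, hqB, hgq⟩ := h.dil hW hp hg ENNReal.toReal_nonneg hM' hδ0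
  refine ⟨q, B, hqd, hqB, ?_⟩
  have h1 := combine (w := fun z => ENNReal.ofReal (W (1 - ‖φ z‖))) hp (f := f) (g := g)
    (h := fun z => q (φ z) * deriv φ z) hf.continuousOn hg.continuousOn (h.W_meas hW)
  refine lt_of_le_of_lt h1 (lt_of_lt_of_le ?_ (min_le_left ε 1))
  rw [← hsum]
  exact ENNReal.mul_lt_mul_right h2p0 h2pt (ENNReal.add_lt_add hfg hgq)

end Pool.Agent.Run7.h762
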