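import Mathlib
import Pool.Agent.Run7.h762.Dense

/-!
# Polynomial approximation, and the profiles
-/

set_option autoImplicit false
open Set Filter Metric Topology MeasureTheory
open scoped ENNReal

namespace Pool.Agent.Run7.h762

variable {φ ψ : ℂ → ℂ}

/-- **Weighted polynomial approximation.** -/
theorem RM.poly (h : RM φ ψ) {W : ℝ → ℝ} (hW : Prof W) {p : ℝ} (hp : 1 ≤ p) {f : ℂ → ℂ}
    (hf : DifferentiableOn ℂ f Dom)
    (hfin : ∫⁻ z in Dom, ‖f z‖ₑ ^ p * ENNReal.ofReal (W (1 - ‖φ z‖)) ≠ ∞) {ε : ℝ≥0∞}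
    (hε : 0 < ε) :
    ∃ P : Polynomial ℂ, ∫⁻ z in Dom, ‖f z - P.eval z‖ₑ ^ p * ENNReal.ofReal (W (1 - ‖φ z‖)) < ε := by
  have hp0 : 0 < p := by linarith
  have h2p0 : (2 : ℝ≥0∞) ^ p ≠ 0 := by simp [ENNReal.rpow_eq_zero_iff]
  have h2pt : (2 : ℝ≥0∞) ^ p ≠ ∞ := ENNReal.rpow_ne_top_of_nonneg hp0.le (by norm_num)
  set δ : ℝ≥0∞ := min ε 1 / (2 ^ p * 2) with hδ
  have hden0 : (2 : ℝ≥0∞) ^ p * 2 ≠ 0 := mul_ne_zero h2p0 (by norm_num)
  have hdent : (2 : ℝ≥0∞) ^ p * 2 ≠ ∞ := ENNReal.mul_ne_top h2pt (by norm_num)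
  have hδ0 : 0 < δ := ENNReal.div_pos (lt_min hε one_pos).ne' hdent
  have hsum : 2 ^ p * (δ + δ) = min ε 1 := by
    rw [← two_mul, ← mul_assoc, hδ]
    exact ENNReal.mul_div_cancel hden0 hdent
  obtain ⟨q, B, hqd, hqB, hfq⟩ := h.dense hW hp hf hfin hδ0
  obtain ⟨K, hKt, hK⟩ := h.conv hW hp0
  have hK1 : K + 1 ≠ ∞ := ENNReal.add_ne_top.2 ⟨hKt, ENNReal.one_ne_top⟩
  have hK0 : K + 1 ≠ 0 := by simp
  have hε' : 0 < (δ / (K + 1)) ^ (1 / p) :=
    ENNReal.rpow_pos_of_nonneg (ENNReal.div_pos hδ0.ne' hK1) (by positivity)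
  obtain ⟨P, hP⟩ := approx_L1 h hqd hqB hε'
  have hqφ : DifferentiableOn ℂ (fun z => q (φ z) * deriv φ z) Dom :=
    (hqd.comp h.dφ h.mφ).mul (h.dφ.deriv isOpen_Dom)
  have hFd : DifferentiableOn ℂ (fun z => q (φ z) * deriv φ z - P.eval z) Dom :=
    hqφ.sub P.differentiable.differentiableOn
  have h1 := hK _ hFd
  set A : ℝ≥0∞ := ∫⁻ z in Dom, ‖q (φ z) * deriv φ z - P.eval z‖ₑ * ENNReal.ofReal (w1 φ z) with hA
  have h2 : A ^ p < δ / (K + 1) := by
    have := ENNReal.rpow_lt_rpow hP hp0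
    rwa [← ENNReal.rpow_mul, one_div_mul_cancel hp0.ne', ENNReal.rpow_one] at this
  have h3 : K * A ^ p < δ := by
    calc K * A ^ p ≤ (K + 1) * A ^ p := by gcongr; exact le_self_add
      _ < (K + 1) * (δ / (K + 1)) := ENNReal.mul_lt_mul_right hK0 hK1 h2
      _ = δ := ENNReal.mul_div_cancel hK0 hK1
  have h4 : ∫⁻ z in Dom, ‖q (φ z) * deriv φ z - P.eval z‖ₑ ^ p *
      ENNReal.ofReal (W (1 - ‖φ z‖)) < δ := lt_of_le_of_lt h1 h3
  refine ⟨P, ?_⟩
  have h5 := combine (w := fun z => ENNReal.ofReal (W (1 - ‖φ z‖))) hp (f := f)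
    (g := fun z => q (φ z) * deriv φ z) (h := fun z => P.eval z) hf.continuousOn
    hqφ.continuousOn (h.W_meas hW)
  refine lt_of_le_of_lt h5 (lt_of_lt_of_le ?_ (min_le_left ε 1))
  rw [← hsum]
  exact ENNReal.mul_lt_mul_right h2p0 h2pt (ENNReal.add_lt_add hfq h4)

/-! ### Profiles -/

theorem prof_of_tendsto {W : ℝ → ℝ} (hpos : ∀ t ∈ Ioc (0 : ℝ) 1, 0 < W t)
    (hmono : MonotoneOn W (Ioc 0 1))
    (hr : Tendsto (fun t : ℝ => t * Real.log (1 / W t)) (𝓝[>] 0) atTop) : Prof W := by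
  refine ⟨hpos, hmono, fun A => ?_⟩
  have h1 := hr.eventually (eventually_ge_atTop A)
  rw [eventually_nhdsWithin_iff, Metric.eventually_nhds_iff] at h1
  obtain ⟨d, hd, h2⟩ := h1
  have hW1 : 0 < W 1 := hpos 1 ⟨one_pos, le_rfl⟩
  refine ⟨max 1 (W 1 * Real.exp (|A| / (d / 2))), by positivity, fun t ht => ?_⟩
  rcases lt_or_ge t d with h3 | h3
  · have h4 := h2 (show dist t 0 < d by
      rw [Real.dist_eq, sub_zero, abs_of_pos ht.1]
      exact h3) ht.1
    have hWt := hpos t ht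
    rw [one_div, Real.log_inv] at h4
    have h5 : Real.log (W t) ≤ -(A / t) := by
      have h6 : A / t ≤ -Real.log (W t) := by
        rw [div_le_iff₀ ht.1]
        linarith
      linarith
    have h6 : W t ≤ Real.exp (-(A / t)) := by
      rw [← Real.exp_log hWt]
      exact Real.exp_le_exp.2 h5
    calc W t ≤ 1 * Real.exp (-(A / t)) := by rw [one_mul]; exact h6
      _ ≤ _ := mul_le_mul_of_nonneg_right (le_max_left _ _) (Real.exp_pos _).le
  · have h4 : W t ≤ W 1 := hmono ht ⟨one_pos, le_rfl⟩ ht.2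
    have h5 : A / t ≤ |A| / (d / 2) := by
      calc A / t ≤ |A| / t := div_le_div_of_nonneg_right (le_abs_self A) ht.1.le
        _ ≤ |A| / (d / 2) := div_le_div_of_nonneg_left (abs_nonneg A) (by positivity) (by linarith)
    have h6 : 1 ≤ Real.exp (|A| / (d / 2)) * Real.exp (-(A / t)) := by
      rw [← Real.exp_add]
      apply Real.one_le_exp
      linarith
    calc W t ≤ W 1 := h4
      _ = W 1 * 1 := (mul_one _).symm
      _ ≤ W 1 * (Real.exp (|A| / (d / 2)) * Real.exp (-(A / t))) :=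
          mul_le_mul_of_nonneg_left h6 hW1.le
      _ = (W 1 * Real.exp (|A| / (d / 2))) * Real.exp (-(A / t)) := by ring
      _ ≤ _ := mul_le_mul_of_nonneg_right (le_max_right _ _) (Real.exp_pos _).le

/-- an example of a profile -/
noncomputable def Wt (t : ℝ) : ℝ := Real.exp (-(1 / t ^ 2))

theorem Wt_pos (t : ℝ) : 0 < Wt t := Real.exp_pos _

theorem Wt_mono : MonotoneOn Wt (Ioc 0 1) := by
  intro a ha b hb hab
  unfold Wt
  apply Real.exp_le_exp.2
  have h1 : a ^ 2 ≤ b ^ 2 := pow_le_pow_left₀ ha.1.le hab 2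
  have h2 : 0 < a ^ 2 := by
    have := ha.1
    positivity
  have := one_div_le_one_div_of_le h2 h1
  linarith

theorem Wt_log (t : ℝ) : Real.log (1 / Wt t) = 1 / t ^ 2 := by
  unfold Wt
  rw [one_div, Real.log_inv, Real.log_exp, neg_neg]

theorem inv_tendsto : Tendsto (fun t : ℝ => 1 / t) (𝓝[>] 0) atTop := by
  simpa using tendsto_inv_nhdsGT_zero (𝕜 := ℝ)

theorem Wt_rapid : Tendsto (fun t : ℝ => t * Real.log (1 / Wt t)) (𝓝[>] 0) atTop := by
  refine inv_tendsto.congr' ?_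
  filter_upwards [self_mem_nhdsWithin] with t ht
  have ht' : 0 < t := ht
  rw [Wt_log]
  field_simp

theorem Wt_lim : Tendsto Wt (𝓝[>] 0) (𝓝 0) := by
  unfold Wt
  apply Real.tendsto_exp_atBot.comp
  apply tendsto_neg_atTop_atBot.comp
  refine tendsto_atTop_mono' _ ?_ inv_tendsto
  have h1 : ∀ᶠ t : ℝ in 𝓝[>] 0, t ≤ 1 := nhdsWithin_le_nhds (Iic_mem_nhds one_pos)
  filter_upwards [self_mem_nhdsWithin, h1] with t ht ht1
  have ht' : 0 < t := ht
  exact one_div_le_one_div_of_le (by positivity) (by nlinarith)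

theorem Wt_half : Wt (1 / 2) < 1 := by
  unfold Wt
  rw [Real.exp_lt_one_iff]
  norm_num

theorem Wt_loglog : IntegrableOn (fun t : ℝ => Real.log (Real.log (1 / Wt t))) (Ioo 0 (1 / 2)) := by
  have h1 : ∀ t : ℝ, Real.log (Real.log (1 / Wt t)) = -2 * Real.log t := by
    intro t
    rw [Wt_log, one_div, Real.log_inv, Real.log_pow]
    push_cast
    ring
  simp only [h1]
  refine Integrable.const_mul ?_ (-2)
  have h2 : IntervalIntegrable Real.log volume 0 (1 / 2) := intervalIntegral.intervalIntegrable_log'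
  rw [intervalIntegrable_iff_integrableOn_Ioo_of_le (by norm_num)] at h2
  exact h2

end Pool.Agent.Run7.h762
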